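import Pool.Agent.Lib.H39T.Bound
import Pool.Agent.H39Alpha.LowerLInf

/-! From a bound for commuting families to a bound for `α(ℓ_∞ⁿ)`. -/

namespace Pool.Agent.Lib.H39T

open scoped ComplexConjugate InnerProductSpace ENNReal
open Pool.Agent.H39Alpha

universe v

theorem alpha_linf_le_of {c : ℝ} (n : ℕ) (hc0 : 0 ≤ c)
    (hbd : ∀ (W : Type v) [NormedAddCommGroup W] [InnerProductSpace ℂ W] [CompleteSpace W]
      (A B D : Fin n → (W →L[ℂ] W)), ContrInf B →
      (∀ i, star (A i) * A i + star (D i) * D i = 1) →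
      (∀ i k, A i * B k = B k * A i) → (∀ i k, star (A i) * B k = B k * star (A i)) →
      (∀ i k, D i * B k = B k * D i) → (∀ i k, star (D i) * B k = B k * star (D i)) →
      ∀ ξ : W, ‖∑ i, A i (B i ξ)‖ ^ 2 ≤ c * ‖ξ‖ ^ 2) :
    alpha.{v} (Fin n → ℂ) ≤ ENNReal.ofReal (Real.sqrt c) := by
  refine iSup_le fun m => iSup_le fun x => iSup_le fun hx => ?_
  refine iSup_le fun H => iSup_le fun _ => iSup_le fun _ => iSup_le fun _ => iSup_le fun u =>
    iSup_le fun hu => ?_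
  apply ENNReal.ofReal_le_ofReal
  rw [blockOp_map_eq_sum x u (fun k => Pi.single k (1:ℂ))
    (fun k => (ContinuousLinearMap.proj k : (Fin n → ℂ) →L[ℂ] ℂ)) pi_decomp]
  have hproj : ∀ k, ‖(ContinuousLinearMap.proj k : (Fin n → ℂ) →L[ℂ] ℂ)‖ ≤ 1 := fun k =>
    ContinuousLinearMap.opNorm_le_bound _ zero_le_one fun z => by
      simpa using norm_le_pi_norm z k
  choose d hd using fun k => exists_compl_matrix
    (x.map (ContinuousLinearMap.proj k : (Fin n → ℂ) →L[ℂ] ℂ))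
    ((norm_map_le_of_minNorm x hx _).trans (hproj k))
  refine ContinuousLinearMap.opNorm_le_bound _ (Real.sqrt_nonneg _) fun ξ => ?_
  have h := hbd _ (fun k => amp H (x.map (ContinuousLinearMap.proj k : (Fin n → ℂ) →L[ℂ] ℂ)))
    (fun k => dia m (u (Pi.single k 1))) (fun k => amp H (d k)) ?_ ?_ ?_ ?_ ?_ ?_ ξ
  · have h2 : (∑ k, amp H (x.map (ContinuousLinearMap.proj k : (Fin n → ℂ) →L[ℂ] ℂ))
        * dia m (u (Pi.single k 1))) ξ
        = ∑ k, amp H (x.map (ContinuousLinearMap.proj k : (Fin n → ℂ) →L[ℂ] ℂ))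
          (dia m (u (Pi.single k 1)) ξ) := by
      rw [sum_apply]
      rfl
    rw [h2, ← sq_le_sq₀ (norm_nonneg _) (by positivity), mul_pow, Real.sq_sqrt hc0]
    exact h
  · intro y hy
    rw [dia_sum_smul]
    have h1 : ∑ k, y k • u (Pi.single k (1:ℂ)) = u y := by
      conv_rhs => rw [pi_decomp y]
      simp [map_sum]
    rw [h1]
    refine (norm_dia_le _).trans ((u.le_opNorm _).trans ?_)
    have h2 : ‖y‖ ≤ 1 := (pi_norm_le_iff_of_nonneg zero_le_one).mpr hy
    calc ‖u‖ * ‖y‖ ≤ 1 * 1 := by gcongr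
      _ = 1 := one_mul 1
  · intro k
    rw [amp_star, amp_star, ← amp_mul, ← amp_mul, ← amp_add, hd, amp_one]
  · intro i k
    exact amp_comm_dia _ _
  · intro i k
    rw [amp_star]
    exact amp_comm_dia _ _
  · intro i k
    exact amp_comm_dia _ _
  · intro i k
    rw [amp_star]
    exact amp_comm_dia _ _

theorem alpha_linf_le_third (n : ℕ) (hn : 1 ≤ n) :
    alpha.{v} (Fin n → ℂ) ≤ ENNReal.ofReal
      (Real.sqrt (n * ((n : ℝ) - Real.sqrt ((n : ℝ) ^ 2 - n)))) := by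
  obtain ⟨h1, h2, h3⟩ := sqrt_facts hn
  refine alpha_linf_le_of n (mul_nonneg (by positivity) (by linarith)) ?_
  intro W _ _ _ A B D hB hAD hc1 hc2 hd1 hd2 ξ
  exact contr_sq_bound hn A B D hB hAD hc1 hc2 hd1 hd2 ξ

end Pool.Agent.Lib.H39T
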