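import Pool.Agent.Lib.H39T.Core
import Pool.Agent.H39Alpha.UpperLInf

/-! The bound for unitary coefficients, and the dilation of contractive coefficients. -/

namespace Pool.Agent.Lib.H39T

open scoped ComplexConjugate InnerProductSpace ENNReal
open Pool.Agent.H39Alpha

universe v

variable {n : ℕ} {W : Type*} [NormedAddCommGroup W] [InnerProductSpace ℂ W]

lemma sqrt_facts (hn : 1 ≤ n) :
    Real.sqrt ((n : ℝ) ^ 2 - n) ^ 2 = (n : ℝ) ^ 2 - n ∧ 0 ≤ Real.sqrt ((n : ℝ) ^ 2 - n) ∧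
      Real.sqrt ((n : ℝ) ^ 2 - n) ≤ n := by
  have hn' : (1 : ℝ) ≤ n := by exact_mod_cast hn
  refine ⟨Real.sq_sqrt (by nlinarith), Real.sqrt_nonneg _, ?_⟩
  rw [Real.sqrt_le_left (by linarith)]
  nlinarith

theorem unitary_sq_bound [CompleteSpace W] (hn : 1 ≤ n) (A B : Fin n → (W →L[ℂ] W))
    (hB : ContrInf B)
    (hU : ∀ i, star (A i) * A i = 1) (hU' : ∀ i, A i * star (A i) = 1)
    (hc : ∀ i k, A i * B k = B k * A i) (ξ : W) :
    ‖∑ i, A i (B i ξ)‖ ^ 2 ≤ n * ((n : ℝ) - Real.sqrt ((n : ℝ) ^ 2 - n)) * ‖ξ‖ ^ 2 := by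
  have hn' : (1 : ℝ) ≤ n := by exact_mod_cast hn
  obtain ⟨h1, h2, h3⟩ := sqrt_facts hn
  obtain ⟨ρ, hρ⟩ : ∃ ρ, ρ = Real.sqrt ((n : ℝ) ^ 2 - n) := ⟨_, rfl⟩
  rw [← hρ] at h1 h2 h3 ⊢
  have hN1 : ∀ i x, ‖A i x‖ = ‖x‖ := by
    intro i x
    have h : ⟪A i x, A i x⟫_ℂ = ⟪x, x⟫_ℂ := by
      rw [← ContinuousLinearMap.adjoint_inner_left, ← ContinuousLinearMap.star_eq_adjoint]
      have : star (A i) (A i x) = x := congrArg (fun F : W →L[ℂ] W => F x) (hU i)
      rw [this]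
    rw [inner_self_eq_norm_sq_to_K, inner_self_eq_norm_sq_to_K] at h
    have h2 : ‖A i x‖ ^ 2 = ‖x‖ ^ 2 := by exact_mod_cast h
    exact (sq_eq_sq₀ (norm_nonneg _) (norm_nonneg _)).mp h2
  obtain ⟨P, hP⟩ : ∃ P : ℝ, P = ∑ k, ‖B k ξ‖ ^ 2 := ⟨_, rfl⟩
  obtain ⟨Y, hY⟩ : ∃ Y : ℝ, Y = ‖∑ i, A i (B i ξ)‖ ^ 2 := ⟨_, rfl⟩
  have hYP : Y ≤ n * P := by
    have h9 : ‖∑ i, A i (B i ξ)‖ ≤ ∑ k, ‖B k ξ‖ :=
      (norm_sum_le _ _).trans (Finset.sum_le_sum fun k _ => (hN1 k _).le)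
    calc Y = ‖∑ i, A i (B i ξ)‖ ^ 2 := hY
      _ ≤ (∑ k, ‖B k ξ‖) ^ 2 := by gcongr
      _ ≤ (Finset.univ : Finset (Fin n)).card * ∑ k, ‖B k ξ‖ ^ 2 := sq_sum_le_card_mul_sum_sq
      _ = n * P := by rw [hP]; simp
  rw [← hY]
  have hX : 0 ≤ ‖ξ‖ ^ 2 := by positivity
  rcases Nat.lt_or_ge 1 n with hn2 | hn2
  · have hn2' : (2 : ℝ) ≤ n := by exact_mod_cast hn2
    have hc1 := core A B hB hU hU' hc ((n : ℝ) - ρ) ξ
    rw [← hP, ← hY] at hc1
    have hc2 : ((n : ℝ) ^ 2 - 2 * ρ) * P + (n - 2 + 2 * ρ) * Y ≤ 2 * ρ ^ 2 * ‖ξ‖ ^ 2 := by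
      have e1 : ((n : ℝ) - 1 - (n - ρ)) ^ 2 + ((n : ℝ) - 1) = (n : ℝ) ^ 2 - 2 * ρ := by
        nlinarith [h1]
      have e2 : (3 * (n : ℝ) - 2 - 2 * (n - ρ)) = n - 2 + 2 * ρ := by ring
      have e3 : (((n : ℝ) - (n - ρ)) ^ 2 + ((n : ℝ) ^ 2 - n)) = 2 * ρ ^ 2 := by
        rw [← h1]; ring
      rw [e1, e2, e3] at hc1
      exact hc1
    have hpos : 0 ≤ (n : ℝ) ^ 2 - 2 * ρ := by nlinarith
    have hρ0 : 0 < ρ := by
      have : (0 : ℝ) < ρ ^ 2 := by rw [h1]; nlinarith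
      rcases h2.lt_or_eq with h | h
      · exact h
      · exfalso
        rw [← h] at this
        norm_num at this
    have hc3 : ((n : ℝ) ^ 2 - 2 * ρ) * Y ≤ ((n : ℝ) ^ 2 - 2 * ρ) * (n * P) :=
      mul_le_mul_of_nonneg_left hYP hpos
    have hc4 : (2 * ρ) * ((ρ + (n - 1)) * Y) ≤ (2 * ρ) * (n * ρ * ‖ξ‖ ^ 2) := by
      have e4 : (2 * ρ) * ((ρ + ((n : ℝ) - 1)) * Y)
          = ((n : ℝ) ^ 2 - 2 * ρ) * Y + n * ((n - 2 + 2 * ρ) * Y) := by
        have : 2 * ρ * (ρ + ((n : ℝ) - 1)) = 2 * ρ ^ 2 + 2 * ρ * (n - 1) := by ring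
        rw [← mul_assoc, this, h1]
        ring
      rw [e4]
      have e5 : (n : ℝ) * (((n : ℝ) ^ 2 - 2 * ρ) * P + (n - 2 + 2 * ρ) * Y)
          ≤ n * (2 * ρ ^ 2 * ‖ξ‖ ^ 2) := mul_le_mul_of_nonneg_left hc2 (by linarith)
      nlinarith [e5, hc3]
    have hc5 := le_of_mul_le_mul_left hc4 (by linarith)
    have hpos2 : 0 < ρ + ((n : ℝ) - 1) := by linarith
    refine le_of_mul_le_mul_left (hc5.trans (le_of_eq ?_)) hpos2
    have e6 : (ρ + ((n : ℝ) - 1)) * (n - ρ) = ρ := by nlinarith [h1]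
    calc (n : ℝ) * ρ * ‖ξ‖ ^ 2 = n * ((ρ + ((n : ℝ) - 1)) * (n - ρ)) * ‖ξ‖ ^ 2 := by rw [e6]
      _ = _ := by ring
  · have hn1 : n = 1 := le_antisymm hn2 hn
    have hn1' : (n : ℝ) = 1 := by exact_mod_cast hn1
    have hc1 := core A B hB hU hU' hc 0 ξ
    rw [← hP, ← hY, hn1'] at hc1
    have hρ0 : ρ = 0 := by
      have : ρ ^ 2 = 0 := by rw [h1, hn1']; norm_num
      exact pow_eq_zero_iff two_ne_zero |>.mp this
    rw [hρ0, hn1']
    nlinarith [hc1]

/-- the unitary dilation, as a matrix -/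
noncomputable def dil [CompleteSpace W] (a d : W →L[ℂ] W) : Matrix (Fin 3) (Fin 3) (W →L[ℂ] W) :=
  !![a, 1 - a * star a, -(a * star d); d, -(d * star a), 1 - d * star d; 0, star a, star d]

/-- its adjoint -/
noncomputable def dilS [CompleteSpace W] (a d : W →L[ℂ] W) : Matrix (Fin 3) (Fin 3) (W →L[ℂ] W) :=
  !![star a, star d, 0; 1 - a * star a, -(a * star d), a; -(d * star a), 1 - d * star d, d]

lemma star_dil [CompleteSpace W] (a d : W →L[ℂ] W) : star (dil a d) = dilS a d := by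
  ext1 i j
  fin_cases i <;> fin_cases j <;> simp [dil, dilS, Matrix.star_apply]

lemma dilS_mul_dil [CompleteSpace W] (a d : W →L[ℂ] W) (h : star a * a + star d * d = 1) :
    dilS a d * dil a d = 1 := by
  obtain ⟨a', ha'⟩ : ∃ a', a' = star a := ⟨_, rfl⟩
  obtain ⟨d', hd'⟩ : ∃ d', d' = star d := ⟨_, rfl⟩
  unfold dil dilS
  rw [← ha', ← hd'] at h ⊢
  ext1 i j
  fin_cases i <;> fin_cases j <;>
    simp only [Matrix.mul_apply, Fin.sum_univ_three, Matrix.of_apply, Matrix.cons_val',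
      Matrix.cons_val_zero, Matrix.cons_val_one, Matrix.cons_val, Fin.zero_eta, Fin.mk_one,
      Fin.reduceFinMk, Matrix.one_apply_eq]
  · rw [mul_zero, add_zero, h]
  · calc a' * (1 - a * a') + d' * -(d * a') + 0 * a'
        = a' - (a' * a + d' * d) * a' := by noncomm_ring
      _ = 0 := by rw [h]; noncomm_ring
  · calc a' * -(a * d') + d' * (1 - d * d') + 0 * d'
        = d' - (a' * a + d' * d) * d' := by noncomm_ring
      _ = 0 := by rw [h]; noncomm_ring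
  · calc (1 - a * a') * a + -(a * d') * d + a * 0
        = a - a * (a' * a + d' * d) := by noncomm_ring
      _ = 0 := by rw [h]; noncomm_ring
  · calc (1 - a * a') * (1 - a * a') + -(a * d') * -(d * a') + a * a'
        = 1 - a * a' + a * (a' * a + d' * d) * a' := by noncomm_ring
      _ = 1 := by rw [h]; noncomm_ring
  · calc (1 - a * a') * -(a * d') + -(a * d') * (1 - d * d') + a * d'
        = -(a * d') + a * (a' * a + d' * d) * d' := by noncomm_ring
      _ = 0 := by rw [h]; noncomm_ring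
  · calc -(d * a') * a + (1 - d * d') * d + d * 0
        = d - d * (a' * a + d' * d) := by noncomm_ring
      _ = 0 := by rw [h]; noncomm_ring
  · calc -(d * a') * (1 - a * a') + (1 - d * d') * -(d * a') + d * a'
        = -(d * a') + d * (a' * a + d' * d) * a' := by noncomm_ring
      _ = 0 := by rw [h]; noncomm_ring
  · calc -(d * a') * -(a * d') + (1 - d * d') * (1 - d * d') + d * d'
        = 1 - d * d' + d * (a' * a + d' * d) * d' := by noncomm_ring
      _ = 1 := by rw [h]; noncomm_ring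

lemma dil_mul_dilS [CompleteSpace W] (a d : W →L[ℂ] W) (h : star a * a + star d * d = 1) :
    dil a d * dilS a d = 1 := by
  obtain ⟨a', ha'⟩ : ∃ a', a' = star a := ⟨_, rfl⟩
  obtain ⟨d', hd'⟩ : ∃ d', d' = star d := ⟨_, rfl⟩
  unfold dil dilS
  rw [← ha', ← hd'] at h ⊢
  ext1 i j
  fin_cases i <;> fin_cases j <;>
    simp only [Matrix.mul_apply, Fin.sum_univ_three, Matrix.of_apply, Matrix.cons_val',
      Matrix.cons_val_zero, Matrix.cons_val_one, Matrix.cons_val, Fin.zero_eta, Fin.mk_one,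
      Fin.reduceFinMk, Matrix.one_apply_eq]
  · calc a * a' + (1 - a * a') * (1 - a * a') + -(a * d') * -(d * a')
        = 1 - a * a' + a * (a' * a + d' * d) * a' := by noncomm_ring
      _ = 1 := by rw [h]; noncomm_ring
  · calc a * d' + (1 - a * a') * -(a * d') + -(a * d') * (1 - d * d')
        = -(a * d') + a * (a' * a + d' * d) * d' := by noncomm_ring
      _ = 0 := by rw [h]; noncomm_ring
  · calc a * 0 + (1 - a * a') * a + -(a * d') * d
        = a - a * (a' * a + d' * d) := by noncomm_ring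
      _ = 0 := by rw [h]; noncomm_ring
  · calc d * a' + -(d * a') * (1 - a * a') + (1 - d * d') * -(d * a')
        = -(d * a') + d * (a' * a + d' * d) * a' := by noncomm_ring
      _ = 0 := by rw [h]; noncomm_ring
  · calc d * d' + -(d * a') * -(a * d') + (1 - d * d') * (1 - d * d')
        = 1 - d * d' + d * (a' * a + d' * d) * d' := by noncomm_ring
      _ = 1 := by rw [h]; noncomm_ring
  · calc d * 0 + -(d * a') * a + (1 - d * d') * d
        = d - d * (a' * a + d' * d) := by noncomm_ring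
      _ = 0 := by rw [h]; noncomm_ring
  · calc 0 * a' + a' * (1 - a * a') + d' * -(d * a')
        = a' - (a' * a + d' * d) * a' := by noncomm_ring
      _ = 0 := by rw [h]; noncomm_ring
  · calc 0 * d' + a' * -(a * d') + d' * (1 - d * d')
        = d' - (a' * a + d' * d) * d' := by noncomm_ring
      _ = 0 := by rw [h]; noncomm_ring
  · calc 0 * 0 + a' * a + d' * d = a' * a + d' * d := by noncomm_ring
      _ = 1 := h

theorem contr_sq_bound [CompleteSpace W] (hn : 1 ≤ n) (A B D : Fin n → (W →L[ℂ] W))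
    (hB : ContrInf B)
    (hAD : ∀ i, star (A i) * A i + star (D i) * D i = 1)
    (hc1 : ∀ i k, A i * B k = B k * A i) (hc2 : ∀ i k, star (A i) * B k = B k * star (A i))
    (hd1 : ∀ i k, D i * B k = B k * D i) (hd2 : ∀ i k, star (D i) * B k = B k * star (D i))
    (ξ : W) :
    ‖∑ i, A i (B i ξ)‖ ^ 2 ≤ n * ((n : ℝ) - Real.sqrt ((n : ℝ) ^ 2 - n)) * ‖ξ‖ ^ 2 := by
  have hU : ∀ i, star (blockOp (dil (A i) (D i))) * blockOp (dil (A i) (D i)) = 1 := by
    intro i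
    rw [blockOp_star, star_dil, ← blockOp_mul, dilS_mul_dil _ _ (hAD i), blockOp_one]
  have hU' : ∀ i, blockOp (dil (A i) (D i)) * star (blockOp (dil (A i) (D i))) = 1 := by
    intro i
    rw [blockOp_star, star_dil, ← blockOp_mul, dil_mul_dilS _ _ (hAD i), blockOp_one]
  have hB' : ContrInf (fun k => dia 3 (B k)) := by
    intro x hx
    rw [dia_sum_smul]
    exact (norm_dia_le _).trans (hB x hx)
  have hcm : ∀ i k, blockOp (dil (A i) (D i)) * dia 3 (B k)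
      = dia 3 (B k) * blockOp (dil (A i) (D i)) := by
    intro i k
    unfold dia
    rw [← blockOp_mul, ← blockOp_mul]
    congr 1
    have e1 := hc1 i k
    have e2 := hc2 i k
    have e3 := hd1 i k
    have e4 := hd2 i k
    have f1 : A i * star (A i) * B k = B k * (A i * star (A i)) := by
      rw [mul_assoc, e2, ← mul_assoc, e1, mul_assoc]
    have f2 : A i * star (D i) * B k = B k * (A i * star (D i)) := by
      rw [mul_assoc, e4, ← mul_assoc, e1, mul_assoc]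
    have f3 : D i * star (A i) * B k = B k * (D i * star (A i)) := by
      rw [mul_assoc, e2, ← mul_assoc, e3, mul_assoc]
    have f4 : D i * star (D i) * B k = B k * (D i * star (D i)) := by
      rw [mul_assoc, e4, ← mul_assoc, e3, mul_assoc]
    ext1 p q
    rw [Matrix.mul_diagonal, Matrix.diagonal_mul]
    fin_cases p <;> fin_cases q <;>
      simp [dil, e1, e2, e3, e4, f1, f2, f3, f4, sub_mul, mul_sub]
  have h := unitary_sq_bound hn _ _ hB' hU hU' hcm (WithLp.toLp 2 ![ξ, 0, 0])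
  have h0 : ‖(WithLp.toLp 2 ![ξ, 0, 0] : PiLp 2 (fun _ : Fin 3 => W))‖ ^ 2 = ‖ξ‖ ^ 2 := by
    rw [PiLp.norm_sq_eq_of_L2, Fin.sum_univ_three]
    simp
  rw [h0] at h
  refine le_trans ?_ h
  have h1 : (∑ i, blockOp (dil (A i) (D i)) (dia 3 (B i) (WithLp.toLp 2 ![ξ, 0, 0]))) 0
      = ∑ i, A i (B i ξ) := by
    rw [WithLp.ofLp_sum, Finset.sum_apply]
    refine Finset.sum_congr rfl fun i _ => ?_
    rw [blockOp_apply, Fin.sum_univ_three]
    simp [dil]
  have h2 := PiLp.norm_apply_le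
    (∑ i, blockOp (dil (A i) (D i)) (dia 3 (B i) (WithLp.toLp 2 ![ξ, 0, 0]))) 0
  rw [h1] at h2
  gcongr

end Pool.Agent.Lib.H39T
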