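import Pool.Agent.Lib.H39T.CoreZ
import Pool.Agent.Lib.H39T.Alpha

/-! The limit of long words, and the bound for `α(ℓ_∞ⁿ)`. -/

namespace Pool.Agent.Lib.H39T

open scoped ComplexConjugate InnerProductSpace ENNReal
open Pool.Agent.H39Alpha Filter Topology

universe u v

variable {n : ℕ}

lemma tendsto_sigma {t : ℝ} (h0 : 0 ≤ t) (h1 : t < 1) :
    Tendsto (fun L : ℕ => ∑ k : Fin L, t ^ (2 * ((k : ℕ) + 1))) atTop
      (𝓝 (t ^ 2 / (1 - t ^ 2))) := by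
  have h := ((hasSum_geometric_of_lt_one (r := t ^ 2) (by positivity)
    (by nlinarith)).mul_left (t ^ 2)).tendsto_sum_nat
  rw [div_eq_mul_inv]
  refine h.congr fun L => ?_
  rw [Fin.sum_univ_eq_sum_range (fun k => t ^ (2 * (k + 1))) L]
  refine Finset.sum_congr rfl fun k _ => ?_
  rw [← pow_mul, ← pow_add]
  congr 1
  ring

theorem sq_bound_t {W : Type*} [NormedAddCommGroup W] [InnerProductSpace ℂ W] [CompleteSpace W]
    (hn : 2 ≤ n) (A B : Fin n → (W →L[ℂ] W)) (hB : ContrInf B)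
    (hU : ∀ i, star (A i) * A i = 1) (hU' : ∀ i, A i * star (A i) = 1)
    (hc : ∀ i k, A i * B k = B k * A i) {t : ℝ} (ht0 : 0 ≤ t) (ht1 : t < 1) (ξ : W) :
    (1 + 2 * ((n : ℝ) - 1) * t + ((n : ℝ) ^ 2 - n - 1) * t ^ 2) * ‖∑ i, A i (B i ξ)‖ ^ 2
      ≤ n * (1 + ((n : ℝ) ^ 2 - n - 1) * t ^ 2) * ‖ξ‖ ^ 2 := by
  have hn' : (2 : ℝ) ≤ n := by exact_mod_cast hn
  have hN1 : ∀ i x, ‖A i x‖ = ‖x‖ := by
    intro i x
    have h : ⟪A i x, A i x⟫_ℂ = ⟪x, x⟫_ℂ := by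
      rw [← ContinuousLinearMap.adjoint_inner_left, ← ContinuousLinearMap.star_eq_adjoint]
      have : star (A i) (A i x) = x := congrArg (fun F : W →L[ℂ] W => F x) (hU i)
      rw [this]
    rw [inner_self_eq_norm_sq_to_K, inner_self_eq_norm_sq_to_K] at h
    have h2 : ‖A i x‖ ^ 2 = ‖x‖ ^ 2 := by exact_mod_cast h
    exact (sq_eq_sq₀ (norm_nonneg _) (norm_nonneg _)).mp h2
  have hcore := fun L : ℕ => coreZ A B hB hU hU' hc t L ξ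
  obtain ⟨P, hP⟩ : ∃ P : ℝ, P = ∑ k, ‖B k ξ‖ ^ 2 := ⟨_, rfl⟩
  obtain ⟨Y, hY⟩ : ∃ Y : ℝ, Y = ‖∑ i, A i (B i ξ)‖ ^ 2 := ⟨_, rfl⟩
  have hYP : Y ≤ n * P := by
    have h9 : ‖∑ i, A i (B i ξ)‖ ≤ ∑ k, ‖B k ξ‖ :=
      (norm_sum_le _ _).trans (Finset.sum_le_sum fun k _ => (hN1 k _).le)
    calc Y = ‖∑ i, A i (B i ξ)‖ ^ 2 := hY
      _ ≤ (∑ k, ‖B k ξ‖) ^ 2 := by gcongr
      _ ≤ (Finset.univ : Finset (Fin n)).card * ∑ k, ‖B k ξ‖ ^ 2 := sq_sum_le_card_mul_sum_sq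
      _ = n * P := by rw [hP]; simp
  rw [← hP, ← hY] at hcore
  rw [← hY]
  have hD : 0 < 1 - t ^ 2 := by nlinarith
  obtain ⟨σ, hσ⟩ : ∃ σ : ℝ, σ = t ^ 2 / (1 - t ^ 2) := ⟨_, rfl⟩
  have hσ0 : 0 ≤ σ := by rw [hσ]; positivity
  have hσD : σ * (1 - t ^ 2) = t ^ 2 := by rw [hσ]; field_simp
  have hlim1 := tendsto_sigma ht0 ht1
  rw [← hσ] at hlim1
  have hlim2 : Tendsto (fun L : ℕ => ∑ k : Fin (L + 1), t ^ (2 * ((k : ℕ) + 1))) atTop (𝓝 σ) :=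
    hlim1.comp (tendsto_add_atTop_nat 1)
  have hlim := le_of_tendsto_of_tendsto'
    (((tendsto_const_nhds (x := (1 - t) ^ 2)).add (hlim1.const_mul
      (((n : ℝ) - 1) * (1 + t ^ 2) - 2 * t + ((n : ℝ) - 1) * (n - 2) * t ^ 2))).mul_const P |>.add
      (((tendsto_const_nhds (x := 2 * t * (1 - t) + n * t ^ 2)).add
        (hlim1.const_mul (2 * t))).mul_const Y))
    (((tendsto_const_nhds (x := (1 : ℝ))).add (hlim2.const_mul ((n : ℝ) ^ 2 - n))).mul_const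
      (‖ξ‖ ^ 2)) hcore
  have ha : 0 ≤ (1 - t) ^ 2 + (((n : ℝ) - 1) * (1 + t ^ 2) - 2 * t
      + ((n : ℝ) - 1) * (n - 2) * t ^ 2) * σ := by
    have h1 : 0 ≤ ((n : ℝ) - 1) * (1 + t ^ 2) - 2 * t := by nlinarith [sq_nonneg (1 - t)]
    have h2 : 0 ≤ ((n : ℝ) - 1) * (n - 2) * t ^ 2 :=
      mul_nonneg (mul_nonneg (by linarith) (by linarith)) (by positivity)
    have h3 : 0 ≤ (((n : ℝ) - 1) * (1 + t ^ 2) - 2 * t
      + ((n : ℝ) - 1) * (n - 2) * t ^ 2) * σ := mul_nonneg (by linarith) hσ0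
    positivity
  have hstep := mul_le_mul_of_nonneg_left hYP ha
  have hfin : ((1 - t) ^ 2 + (((n : ℝ) - 1) * (1 + t ^ 2) - 2 * t
        + ((n : ℝ) - 1) * (n - 2) * t ^ 2) * σ
        + n * (2 * t * (1 - t) + n * t ^ 2 + 2 * t * σ)) * Y
      ≤ n * ((1 + ((n : ℝ) ^ 2 - n) * σ) * ‖ξ‖ ^ 2) := by
    have h4 := mul_le_mul_of_nonneg_left hlim (by linarith : (0 : ℝ) ≤ n)
    nlinarith [h4, hstep]
  have hfin2 := mul_le_mul_of_nonneg_left hfin hD.le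
  have e1 : (1 - t ^ 2) * (((1 - t) ^ 2 + (((n : ℝ) - 1) * (1 + t ^ 2) - 2 * t
        + ((n : ℝ) - 1) * (n - 2) * t ^ 2) * σ
        + n * (2 * t * (1 - t) + n * t ^ 2 + 2 * t * σ)) * Y)
      = (1 + 2 * ((n : ℝ) - 1) * t + ((n : ℝ) ^ 2 - n - 1) * t ^ 2) * Y := by
    linear_combination ((((n : ℝ) - 1) * (1 + t ^ 2) - 2 * t
        + ((n : ℝ) - 1) * (n - 2) * t ^ 2) + n * (2 * t)) * Y * hσD
  have e2 : (1 - t ^ 2) * (n * ((1 + ((n : ℝ) ^ 2 - n) * σ) * ‖ξ‖ ^ 2))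
      = n * (1 + ((n : ℝ) ^ 2 - n - 1) * t ^ 2) * ‖ξ‖ ^ 2 := by
    linear_combination (n : ℝ) * ((n : ℝ) ^ 2 - n) * ‖ξ‖ ^ 2 * hσD
  rw [e1, e2] at hfin2
  exact hfin2

/-- the constant -/
noncomputable def cst (n : ℕ) : ℝ :=
  (n : ℝ) / (1 + ((n : ℝ) - 1) / Real.sqrt ((n : ℝ) ^ 2 - n - 1))

lemma cst_nonneg (hn : 2 ≤ n) : 0 ≤ cst n := by
  have hn' : (2 : ℝ) ≤ n := by exact_mod_cast hn
  unfold cst
  have : 0 ≤ (n : ℝ) - 1 := by linarith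
  positivity

lemma cst_lt (hn : 2 ≤ n) : cst n < (n : ℝ) / 2 + 1 / 8 := by
  have hn' : (2 : ℝ) ≤ n := by exact_mod_cast hn
  have hm : (0 : ℝ) < (n : ℝ) ^ 2 - n - 1 := by nlinarith
  have hs : 0 < Real.sqrt ((n : ℝ) ^ 2 - n - 1) := Real.sqrt_pos.mpr hm
  have hn1 : 0 ≤ (n : ℝ) - 1 := by linarith
  have key : (4 * (n : ℝ) - 1) / (4 * n + 1) < ((n : ℝ) - 1) / Real.sqrt ((n : ℝ) ^ 2 - n - 1) := by
    rw [div_lt_div_iff₀ (by linarith) hs]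
    refine lt_of_pow_lt_pow_left₀ 2 (mul_nonneg hn1 (by linarith)) ?_
    rw [mul_pow, Real.sq_sqrt hm.le]
    nlinarith
  unfold cst
  rw [div_lt_iff₀ (by positivity)]
  have h2 : (4 * (n : ℝ) - 1) / (4 * n + 1) = 8 * n / (4 * n + 1) - 1 := by
    field_simp
    ring
  rw [h2] at key
  have h3 : 8 * (n : ℝ) / (4 * n + 1)
      < 1 + ((n : ℝ) - 1) / Real.sqrt ((n : ℝ) ^ 2 - n - 1) := by linarith
  rw [div_lt_iff₀ (by linarith)] at h3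
  linarith

theorem unitary_sq_boundZ {W : Type*} [NormedAddCommGroup W] [InnerProductSpace ℂ W]
    [CompleteSpace W]
    (hn : 2 ≤ n) (A B : Fin n → (W →L[ℂ] W)) (hB : ContrInf B)
    (hU : ∀ i, star (A i) * A i = 1) (hU' : ∀ i, A i * star (A i) = 1)
    (hc : ∀ i k, A i * B k = B k * A i) (ξ : W) :
    ‖∑ i, A i (B i ξ)‖ ^ 2 ≤ cst n * ‖ξ‖ ^ 2 := by
  have hn' : (2 : ℝ) ≤ n := by exact_mod_cast hn
  have hm : (1 : ℝ) ≤ (n : ℝ) ^ 2 - n - 1 := by nlinarith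
  have hs : 1 ≤ Real.sqrt ((n : ℝ) ^ 2 - n - 1) := by
    rw [Real.le_sqrt' one_pos]
    linarith
  have hs2 : Real.sqrt ((n : ℝ) ^ 2 - n - 1) ^ 2 = (n : ℝ) ^ 2 - n - 1 :=
    Real.sq_sqrt (by linarith)
  have hmain : ∀ t : ℝ, 0 ≤ t → t ≤ 1 →
      (1 + 2 * ((n : ℝ) - 1) * t + ((n : ℝ) ^ 2 - n - 1) * t ^ 2) * ‖∑ i, A i (B i ξ)‖ ^ 2
        ≤ n * (1 + ((n : ℝ) ^ 2 - n - 1) * t ^ 2) * ‖ξ‖ ^ 2 := by
    intro t h0 h1
    rcases h1.lt_or_eq with h | h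
    · exact sq_bound_t hn A B hB hU hU' hc h0 h ξ
    · subst h
      have hev : ∀ᶠ t in 𝓝[<] (1 : ℝ),
          (1 + 2 * ((n : ℝ) - 1) * t + ((n : ℝ) ^ 2 - n - 1) * t ^ 2)
              * ‖∑ i, A i (B i ξ)‖ ^ 2
            ≤ n * (1 + ((n : ℝ) ^ 2 - n - 1) * t ^ 2) * ‖ξ‖ ^ 2 := by
        filter_upwards [Ioo_mem_nhdsLT (zero_lt_one (α := ℝ))] with t ht
        exact sq_bound_t hn A B hB hU hU' hc ht.1.le ht.2 ξ
      refine le_of_tendsto_of_tendsto (b := 𝓝[<] (1 : ℝ)) ?_ ?_ hev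
      · exact (Continuous.tendsto (by fun_prop) 1).mono_left nhdsWithin_le_nhds
      · exact (Continuous.tendsto (by fun_prop) 1).mono_left nhdsWithin_le_nhds
  obtain ⟨r, hr⟩ : ∃ r, r = Real.sqrt ((n : ℝ) ^ 2 - n - 1) := ⟨_, rfl⟩
  rw [← hr] at hs hs2
  have hr0 : 0 < r := by linarith
  have h := hmain (1 / r) (by positivity) (by rw [div_le_one hr0]; exact hs)
  have e1 : 1 + 2 * ((n : ℝ) - 1) * (1 / r) + ((n : ℝ) ^ 2 - n - 1) * (1 / r) ^ 2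
      = 2 * (1 + ((n : ℝ) - 1) / r) := by
    rw [← hs2]
    field_simp
    ring
  have e2 : 1 + ((n : ℝ) ^ 2 - n - 1) * (1 / r) ^ 2 = 2 := by
    rw [← hs2]
    field_simp
    ring
  rw [e1, e2] at h
  unfold cst
  rw [← hr]
  have hpos : 0 < 1 + ((n : ℝ) - 1) / r := by
    have : 0 ≤ (n : ℝ) - 1 := by linarith
    positivity
  rw [div_mul_eq_mul_div, le_div_iff₀ hpos]
  nlinarith [h]

theorem contr_of_unitary {W : Type u} [NormedAddCommGroup W] [InnerProductSpace ℂ W]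
    [CompleteSpace W] {c : ℝ}
    (hun : ∀ (V : Type u) [NormedAddCommGroup V] [InnerProductSpace ℂ V] [CompleteSpace V]
      (A B : Fin n → (V →L[ℂ] V)), ContrInf B → (∀ i, star (A i) * A i = 1) →
      (∀ i, A i * star (A i) = 1) → (∀ i k, A i * B k = B k * A i) →
      ∀ ξ : V, ‖∑ i, A i (B i ξ)‖ ^ 2 ≤ c * ‖ξ‖ ^ 2)
    (A B D : Fin n → (W →L[ℂ] W))
    (hB : ContrInf B)
    (hAD : ∀ i, star (A i) * A i + star (D i) * D i = 1)
    (hc1 : ∀ i k, A i * B k = B k * A i) (hc2 : ∀ i k, star (A i) * B k = B k * star (A i))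
    (hd1 : ∀ i k, D i * B k = B k * D i) (hd2 : ∀ i k, star (D i) * B k = B k * star (D i))
    (ξ : W) :
    ‖∑ i, A i (B i ξ)‖ ^ 2 ≤ c * ‖ξ‖ ^ 2 := by
  have hU : ∀ i, star (blockOp (dil (A i) (D i))) * blockOp (dil (A i) (D i)) = 1 := by
    intro i
    rw [blockOp_star, star_dil, ← blockOp_mul, dilS_mul_dil _ _ (hAD i), blockOp_one]
  have hU' : ∀ i, blockOp (dil (A i) (D i)) * star (blockOp (dil (A i) (D i))) = 1 := by
    intro i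
    rw [blockOp_star, star_dil, ← blockOp_mul, dil_mul_dilS _ _ (hAD i), blockOp_one]
  have hB' : ContrInf (fun k => dia 3 (B k)) := by
    intro x hx
    rw [dia_sum_smul]
    exact (norm_dia_le _).trans (hB x hx)
  have hcm : ∀ i k, blockOp (dil (A i) (D i)) * dia 3 (B k)
      = dia 3 (B k) * blockOp (dil (A i) (D i)) := by
    intro i k
    unfold dia
    rw [← blockOp_mul, ← blockOp_mul]
    congr 1
    have e1 := hc1 i k
    have e2 := hc2 i k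
    have e3 := hd1 i k
    have e4 := hd2 i k
    have f1 : A i * star (A i) * B k = B k * (A i * star (A i)) := by
      rw [mul_assoc, e2, ← mul_assoc, e1, mul_assoc]
    have f2 : A i * star (D i) * B k = B k * (A i * star (D i)) := by
      rw [mul_assoc, e4, ← mul_assoc, e1, mul_assoc]
    have f3 : D i * star (A i) * B k = B k * (D i * star (A i)) := by
      rw [mul_assoc, e2, ← mul_assoc, e3, mul_assoc]
    have f4 : D i * star (D i) * B k = B k * (D i * star (D i)) := by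
      rw [mul_assoc, e4, ← mul_assoc, e3, mul_assoc]
    ext1 p q
    rw [Matrix.mul_diagonal, Matrix.diagonal_mul]
    fin_cases p <;> fin_cases q <;>
      simp [dil, e1, e2, e3, e4, f1, f2, f3, f4, sub_mul, mul_sub]
  have h := hun _ _ _ hB' hU hU' hcm (WithLp.toLp 2 ![ξ, 0, 0])
  have h0 : ‖(WithLp.toLp 2 ![ξ, 0, 0] : PiLp 2 (fun _ : Fin 3 => W))‖ ^ 2 = ‖ξ‖ ^ 2 := by
    rw [PiLp.norm_sq_eq_of_L2, Fin.sum_univ_three]
    simp
  rw [h0] at h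
  refine le_trans ?_ h
  have h1 : (∑ i, blockOp (dil (A i) (D i)) (dia 3 (B i) (WithLp.toLp 2 ![ξ, 0, 0]))) 0
      = ∑ i, A i (B i ξ) := by
    rw [WithLp.ofLp_sum, Finset.sum_apply]
    refine Finset.sum_congr rfl fun i _ => ?_
    rw [blockOp_apply, Fin.sum_univ_three]
    simp [dil]
  have h2 := PiLp.norm_apply_le
    (∑ i, blockOp (dil (A i) (D i)) (dia 3 (B i) (WithLp.toLp 2 ![ξ, 0, 0]))) 0
  rw [h1] at h2
  gcongr

theorem alpha_linf_le_cst (n : ℕ) (hn : 2 ≤ n) :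
    alpha.{v} (Fin n → ℂ) ≤ ENNReal.ofReal (Real.sqrt (cst n)) := by
  refine alpha_linf_le_of n (cst_nonneg hn) ?_
  intro W _ _ _ A B D hB hAD hc1 hc2 hd1 hd2 ξ
  refine contr_of_unitary ?_ A B D hB hAD hc1 hc2 hd1 hd2 ξ
  intro V _ _ _ A B hB hU hU' hc ξ
  exact unitary_sq_boundZ hn A B hB hU hU' hc ξ

end Pool.Agent.Lib.H39T
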