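import Pool.Agent.Lib.H39T.Modes
import Pool.Agent.H39Alpha.UpperInf

/-! The third order inequality for unitary coefficients. -/

namespace Pool.Agent.Lib.H39T

open scoped ComplexConjugate InnerProductSpace
open Pool.Agent.H39Alpha (ContrInf)

variable {n : ℕ} {W : Type*} [NormedAddCommGroup W] [InnerProductSpace ℂ W]

omit [InnerProductSpace ℂ W] in
lemma sum_cond1 (v : Fin n → Fin n → Fin n → W) (l : Fin n) :
    ∑ i, ∑ j, ∑ k, (if (i = j ∧ k = l) ∨ (i = l ∧ j = k) then v i j k else 0)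
      = ∑ i, v i i l + ∑ j, v l j j - v l l l := by
  have h : ∀ i j k, (if (i = j ∧ k = l) ∨ (i = l ∧ j = k) then v i j k else 0)
      = (if i = j then (if k = l then v i j k else 0) else 0)
        + (if i = l then (if j = k then v i j k else 0) else 0)
        - (if i = l then (if j = l then (if k = l then v i j k else 0) else 0) else 0) := by
    intro i j k
    by_cases h1 : i = j <;> by_cases h2 : k = l <;> by_cases h3 : i = l <;>
      by_cases h4 : j = k <;> by_cases h5 : j = l <;> simp_all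
  simp_rw [h, Finset.sum_sub_distrib, Finset.sum_add_distrib]
  congr 1
  · congr 1
    · refine Finset.sum_congr rfl fun i _ => ?_
      simp
    · simp
  · simp

omit [InnerProductSpace ℂ W] in
lemma sum_cond2 (v : Fin n → Fin n → Fin n → W) (a b : Fin n) :
    ∑ i, ∑ j, ∑ k, (if i = a ∧ k = a ∧ j = b then v i j k else 0) = v a b a := by
  have h : ∀ i j k, (if i = a ∧ k = a ∧ j = b then v i j k else 0)
      = (if i = a then (if j = b then (if k = a then v i j k else 0) else 0) else 0) := by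
    intro i j k
    by_cases h1 : i = a <;> by_cases h2 : k = a <;> by_cases h3 : j = b <;> simp_all
  simp_rw [h]
  simp

/-- the frequencies on the left -/
def muL : (Fin n × Fin n × Fin n) ⊕ Fin n → (Fin n → ZMod 4)
  | Sum.inl t => -ee t.1 + ee t.2.1 - ee t.2.2
  | Sum.inr k => -ee k

/-- the vectors on the left -/
noncomputable def vL (v : Fin n → Fin n → Fin n → W) (f : Fin n → W) :
    (Fin n × Fin n × Fin n) ⊕ Fin n → W
  | Sum.inl t => v t.1 t.2.1 t.2.2
  | Sum.inr k => f k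

lemma coeff_inl (v : Fin n → Fin n → Fin n → W) (f : Fin n → W) (l : Fin n) :
    ∑ t, (if muL t = nu (Sum.inl l) then vL v f t else 0)
      = ∑ i, v i i l + ∑ j, v l j j - v l l l + f l := by
  rw [Fintype.sum_sum_type, Fintype.sum_prod_type]
  simp_rw [Fintype.sum_prod_type]
  simp only [muL, vL, nu, cond1]
  rw [sum_cond1]
  congr 1
  have h : ∀ k, (if -ee k = -ee l then f k else 0) = if k = l then f k else 0 := by
    intro k
    by_cases hk : k = l
    · simp [hk]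
    · rw [if_neg hk, if_neg (fun h => hk (ee_inj (neg_injective h)))]
  rw [Finset.sum_congr rfl fun k _ => h k]
  simp

lemma coeff_inr (v : Fin n → Fin n → Fin n → W) (f : Fin n → W) (p : Off n) :
    ∑ t, (if muL t = nu (Sum.inr p) then vL v f t else 0) = v p.1.1 p.1.2 p.1.1 := by
  rw [Fintype.sum_sum_type, Fintype.sum_prod_type]
  simp_rw [Fintype.sum_prod_type]
  simp only [muL, vL, nu, cond2 p.2]
  rw [sum_cond2, Finset.sum_eq_zero fun k _ => if_neg (cond3 p.2 k), add_zero]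

theorem core [CompleteSpace W] (A B : Fin n → (W →L[ℂ] W)) (hB : ContrInf B)
    (hU : ∀ i, star (A i) * A i = 1) (hU' : ∀ i, A i * star (A i) = 1)
    (hc : ∀ i k, A i * B k = B k * A i) (τ : ℝ) (ξ : W) :
    (((n : ℝ) - 1 - τ) ^ 2 + ((n : ℝ) - 1)) * ∑ k, ‖B k ξ‖ ^ 2
        + (3 * n - 2 - 2 * τ) * ‖∑ i, A i (B i ξ)‖ ^ 2
      ≤ (((n : ℝ) - τ) ^ 2 + (n ^ 2 - n)) * ‖ξ‖ ^ 2 := by
  have hA1 : ∀ i x, star (A i) (A i x) = x := fun i x =>
    congrArg (fun F : W →L[ℂ] W => F x) (hU i)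
  have hA2 : ∀ i x, A i (star (A i) x) = x := fun i x =>
    congrArg (fun F : W →L[ℂ] W => F x) (hU' i)
  have hin : ∀ i x y, ⟪star (A i) x, y⟫_ℂ = ⟪x, A i y⟫_ℂ := by
    intro i x y
    rw [ContinuousLinearMap.star_eq_adjoint, ContinuousLinearMap.adjoint_inner_left]
  have hN1 : ∀ i x, ‖A i x‖ = ‖x‖ := by
    intro i x
    have h : ⟪A i x, A i x⟫_ℂ = ⟪x, x⟫_ℂ := by rw [← hin, hA1]
    rw [inner_self_eq_norm_sq_to_K, inner_self_eq_norm_sq_to_K] at h
    have h2 : ‖A i x‖ ^ 2 = ‖x‖ ^ 2 := by exact_mod_cast h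
    exact (sq_eq_sq₀ (norm_nonneg _) (norm_nonneg _)).mp h2
  have hN2 : ∀ i x, ‖star (A i) x‖ = ‖x‖ := by
    intro i x
    rw [← hN1 i (star (A i) x), hA2]
  have hcA : ∀ i k x, A i (B k x) = B k (A i x) := fun i k x =>
    congrArg (fun F : W →L[ℂ] W => F x) (hc i k)
  have hcS : ∀ i k x, star (A i) (B k x) = B k (star (A i) x) := by
    intro i k x
    have h : A i (B k (star (A i) x)) = B k x := by rw [hcA, hA2]
    rw [← h, hA1]
  obtain ⟨y, hy⟩ : ∃ y, y = ∑ i, A i (B i ξ) := ⟨_, rfl⟩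
  rw [← hy]
  -- the vectors
  obtain ⟨zeta, hzeta⟩ : ∃ zeta : (Fin n → ZMod 4) → W, zeta = fun s =>
      ∑ i, ∑ j, chi (-ee i + ee j) s • star (A i) (A j ξ) - (τ : ℂ) • ξ := ⟨_, rfl⟩
  obtain ⟨v, hv⟩ : ∃ v : Fin n → Fin n → Fin n → W, v = fun i j k =>
      star (A i) (A j (B k ξ)) := ⟨_, rfl⟩
  obtain ⟨f, hf⟩ : ∃ f : Fin n → W, f = fun k => -((τ : ℂ) • B k ξ) := ⟨_, rfl⟩
  have hH : ∀ s, (∑ k, chi (-ee k) s • B k) (zeta s) = ∑ t, chi (muL t) s • vL v f t := by
    intro s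
    have hBz : ∀ x, (∑ k, chi (-ee k) s • B k) x = ∑ k, chi (-ee k) s • B k x := by
      intro x
      simp [sum_apply]
    rw [Fintype.sum_sum_type, Fintype.sum_prod_type]
    simp_rw [Fintype.sum_prod_type]
    simp only [muL, vL, hzeta, hv, hf]
    rw [map_sub, map_smul, sub_eq_add_neg]
    congr 1
    · rw [map_sum]
      refine Finset.sum_congr rfl fun i _ => ?_
      rw [map_sum]
      refine Finset.sum_congr rfl fun j _ => ?_
      rw [map_smul, hBz, Finset.smul_sum]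
      refine Finset.sum_congr rfl fun k _ => ?_
      rw [smul_smul, ← chi_add, ← sub_eq_add_neg, hcA, hcS]
    · rw [hBz, Finset.smul_sum, ← Finset.sum_neg_distrib]
      refine Finset.sum_congr rfl fun k _ => ?_
      rw [smul_neg, smul_comm]
  have hbound : ∀ s, ‖∑ t, chi (muL t) s • vL v f t‖ ^ 2 ≤ ‖zeta s‖ ^ 2 := by
    intro s
    rw [← hH]
    have h2 := hB (fun k => chi (-ee k) s) (fun k => (norm_chi _ _).le)
    have h3 := (∑ k, chi (-ee k) s • B k).le_opNorm (zeta s)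
    have h4 := h3.trans (mul_le_of_le_one_left (norm_nonneg _) h2)
    gcongr
  -- the right hand side
  have hR : ∑ s, ‖zeta s‖ ^ 2 = 4 ^ n * ((((n : ℝ) - τ) ^ 2 + (n ^ 2 - n)) * ‖ξ‖ ^ 2) := by
    obtain ⟨w, hw⟩ : ∃ w : Option (Off n) → W, w = fun t => Option.elim t
        ((((n : ℝ) - τ : ℝ) : ℂ) • ξ) (fun p => star (A p.1.1) (A p.1.2 ξ)) := ⟨_, rfl⟩
    have h1 : ∀ s, zeta s = ∑ t, chi (mu' t) s • w t := by
      intro s
      rw [Fintype.sum_option, hzeta, hw]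
      simp only [mu', Option.elim]
      rw [sum_split (fun i j => chi (-ee i + ee j) s • star (A i) (A j ξ))]
      have h2 : ∑ i, chi (-ee i + ee i) s • star (A i) (A i ξ) = (n : ℂ) • ξ := by
        have h3 : ∀ i, chi (-ee i + ee i) s • star (A i) (A i ξ) = ξ := by
          intro i
          rw [neg_add_cancel, chi_zero, one_smul, hA1]
        rw [Finset.sum_congr rfl fun i _ => h3 i]
        simp [Nat.cast_smul_eq_nsmul]
      rw [h2, chi_zero, one_smul]
      push_cast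
      rw [sub_smul]
      abel
    rw [Finset.sum_congr rfl fun s _ => by rw [h1 s], parseval mu' mu'_inj, Fintype.sum_option]
    congr 1
    have h4 : ∑ p : Off n, ‖w (some p)‖ ^ 2 = ((n : ℝ) ^ 2 - n) * ‖ξ‖ ^ 2 := by
      have h5 : ∀ p : Off n, ‖w (some p)‖ ^ 2 = ‖ξ‖ ^ 2 := by
        intro p
        rw [hw]
        simp only [Option.elim]
        rw [hN2, hN1]
      rw [Finset.sum_congr rfl fun p _ => h5 p]
      have h6 := sum_split (n := n) (fun _ _ => ‖ξ‖ ^ 2)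
      simp only [Finset.sum_const, Finset.card_univ, Fintype.card_fin, nsmul_eq_mul] at h6 ⊢
      nlinarith [h6]
    have h7 : ‖w none‖ ^ 2 = ((n : ℝ) - τ) ^ 2 * ‖ξ‖ ^ 2 := by
      rw [hw]
      simp only [Option.elim]
      rw [norm_smul, mul_pow, Complex.norm_real, Real.norm_eq_abs, sq_abs]
    rw [h4, h7]
    ring
  -- the left hand side
  have hL := bessel muL (vL v f) nu nu_inj
  have hLR := hL.trans (Finset.sum_le_sum fun s _ => hbound s)
  rw [hR] at hLR
  have hfin := le_of_mul_le_mul_left hLR (by positivity)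
  rw [Fintype.sum_sum_type] at hfin
  have hc1 : ∀ l, ∑ t, (if muL t = nu (Sum.inl l) then vL v f t else 0)
      = (((n : ℝ) - 1 - τ : ℝ) : ℂ) • B l ξ + star (A l) y := by
    intro l
    rw [coeff_inl, hv, hf]
    simp only [hA1]
    have h2 : ∑ j, star (A l) (A j (B j ξ)) = star (A l) y := by
      rw [hy, map_sum]
    rw [h2]
    push_cast
    simp only [Finset.sum_const, Finset.card_univ, Fintype.card_fin, sub_smul, one_smul,
      Nat.cast_smul_eq_nsmul]
    abel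
  have hc2 : ∀ p : Off n, ‖∑ t, (if muL t = nu (Sum.inr p) then vL v f t else 0)‖ ^ 2
      = ‖B p.1.1 ξ‖ ^ 2 := by
    intro p
    rw [coeff_inr, hv]
    simp only
    rw [hN2, hN1]
  rw [Finset.sum_congr rfl fun l _ => by rw [hc1 l], Finset.sum_congr rfl fun p _ => hc2 p]
    at hfin
  have hsq : ∀ l, ‖(((n : ℝ) - 1 - τ : ℝ) : ℂ) • B l ξ + star (A l) y‖ ^ 2
      = ((n : ℝ) - 1 - τ) ^ 2 * ‖B l ξ‖ ^ 2
        + 2 * ((n : ℝ) - 1 - τ) * (⟪A l (B l ξ), y⟫_ℂ).re + ‖y‖ ^ 2 := by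
    intro l
    have h3 : (⟪(((n : ℝ) - 1 - τ : ℝ) : ℂ) • B l ξ, star (A l) y⟫_ℂ).re
        = ((n : ℝ) - 1 - τ) * (⟪A l (B l ξ), y⟫_ℂ).re := by
      have h4 : ⟪B l ξ, star (A l) y⟫_ℂ = ⟪A l (B l ξ), y⟫_ℂ := by
        rw [← inner_conj_symm, hin, inner_conj_symm]
      rw [inner_smul_left, h4, Complex.conj_ofReal, Complex.re_ofReal_mul]
    rw [norm_add_sq (𝕜 := ℂ), hN2, norm_smul, mul_pow, Complex.norm_real, Real.norm_eq_abs,
      sq_abs]
    have h5 : RCLike.re ⟪(((n : ℝ) - 1 - τ : ℝ) : ℂ) • B l ξ, star (A l) y⟫_ℂ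
        = ((n : ℝ) - 1 - τ) * (⟪A l (B l ξ), y⟫_ℂ).re := h3
    rw [h5]
    ring
  rw [Finset.sum_congr rfl fun l _ => hsq l, Finset.sum_add_distrib, Finset.sum_add_distrib,
    ← Finset.mul_sum, ← Finset.mul_sum] at hfin
  have h6 : ∑ l, (⟪A l (B l ξ), y⟫_ℂ).re = ‖y‖ ^ 2 := by
    have h7 : (⟪y, y⟫_ℂ).re = ‖y‖ ^ 2 := by
      rw [inner_self_eq_norm_sq_to_K]
      norm_cast
    rw [← h7]
    conv_rhs => rw [hy, sum_inner, Complex.re_sum]
    rw [hy]
  have h8 : ∑ p : Off n, ‖B p.1.1 ξ‖ ^ 2 = ((n : ℝ) - 1) * ∑ k, ‖B k ξ‖ ^ 2 := by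
    have h9 := sum_split (n := n) (fun i _ => ‖B i ξ‖ ^ 2)
    simp only [Finset.sum_const, Finset.card_univ, Fintype.card_fin, nsmul_eq_mul] at h9
    rw [← Finset.mul_sum] at h9
    linarith
  rw [h6, h8] at hfin
  simp only [Finset.sum_const, Finset.card_univ, Fintype.card_fin, nsmul_eq_mul] at hfin
  nlinarith [hfin]

end Pool.Agent.Lib.H39T
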