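import Pool.Agent.Lib.H39T.ModesZ
import Pool.Agent.H39Alpha.UpperInf

/-! The inequality with all words in two letters. -/

namespace Pool.Agent.Lib.H39T

open scoped ComplexConjugate InnerProductSpace
open Pool.Agent.H39Alpha (ContrInf)

variable {n L : ℕ} {W : Type*} [NormedAddCommGroup W] [InnerProductSpace ℂ W]

lemma tri_sum (F : Fin n → ℝ) :
    ∑ q : Tri n, F q.1.2.2 = ((n : ℝ) - 1) * (n - 2) * ∑ c, F c := by
  classical
  have h1 : ∑ q : Tri n, F q.1.2.2 = ∑ a : Fin n, ∑ b : Fin n, ∑ c : Fin n,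
      (if a ≠ b ∧ a ≠ c ∧ b ≠ c then F c else 0) := by
    rw [← Finset.sum_subtype (Finset.univ.filter
      (fun q : Fin n × Fin n × Fin n => q.1 ≠ q.2.1 ∧ q.1 ≠ q.2.2 ∧ q.2.1 ≠ q.2.2))
      (by simp) (fun q => F q.2.2), Finset.sum_filter, Fintype.sum_prod_type]
    simp_rw [Fintype.sum_prod_type]
  rw [h1]
  have h2 : ∀ a b c : Fin n, (if a ≠ b ∧ a ≠ c ∧ b ≠ c then F c else 0)
      = F c - (if a = b then F c else 0) - (if a = c then F c else 0) - (if b = c then F c else 0)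
        + 2 * (if a = c then (if b = c then F c else 0) else 0) := by
    intro a b c
    by_cases e1 : a = b <;> by_cases e2 : a = c <;> by_cases e3 : b = c <;> simp_all <;> ring
  simp_rw [h2, Finset.sum_add_distrib, Finset.sum_sub_distrib, ← Finset.mul_sum]
  have k1 : ∑ a : Fin n, ∑ b : Fin n, ∑ c : Fin n, F c = (n : ℝ) ^ 2 * ∑ c, F c := by
    simp only [Finset.sum_const, Finset.card_univ, Fintype.card_fin, nsmul_eq_mul]
    ring
  have k2 : ∑ a : Fin n, ∑ b : Fin n, ∑ c : Fin n, (if a = b then F c else 0)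
      = (n : ℝ) * ∑ c, F c := by
    have : ∀ a : Fin n, ∑ b : Fin n, ∑ c : Fin n, (if a = b then F c else 0) = ∑ c, F c := by
      intro a
      rw [Finset.sum_comm]
      simp
    rw [Finset.sum_congr rfl fun a _ => this a]
    simp
  have k3 : ∑ a : Fin n, ∑ b : Fin n, ∑ c : Fin n, (if a = c then F c else 0)
      = (n : ℝ) * ∑ c, F c := by
    rw [Finset.sum_comm]
    simp
  have k4 : ∑ a : Fin n, ∑ b : Fin n, ∑ c : Fin n, (if b = c then F c else 0)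
      = (n : ℝ) * ∑ c, F c := by
    simp
  have k5 : ∑ a : Fin n, ∑ b : Fin n, ∑ c : Fin n,
      (if a = c then (if b = c then F c else 0) else 0) = ∑ c, F c := by
    refine Finset.sum_congr rfl fun a _ => ?_
    rw [Finset.sum_comm]
    simp
  rw [k1, k2, k3, k4, k5]
  ring

/-- the operators of the words -/
noncomputable def wd (A : Fin n → (W →L[ℂ] W)) [CompleteSpace W] (t : ℝ) (L : ℕ) :
    T0 n L → (W →L[ℂ] W)
  | none => 1
  | some x => ((t ^ ((x.2 : ℕ) + 1) : ℝ) : ℂ) • (star (A x.1.1.1) * A x.1.1.2) ^ ((x.2 : ℕ) + 1)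

lemma coefA (v : T0 n L × Fin n → W) (l : Fin n) :
    ∑ x, (if m1 L x = sg (-1) l then v x else 0)
      = v (none, l) + ∑ p : Off n, (if p.1.1 = l then v (some (p, 0), p.1.2) else 0) := by
  rw [Fintype.sum_prod_type, Fintype.sum_option]
  congr 1
  · have h : ∀ l', (if m1 L ((none : T0 n L), l') = sg (-1) l then v (none, l') else 0)
        = if l' = l then v (none, l') else 0 := by
      intro l'
      have : (m1 L ((none : T0 n L), l') = sg (-1) l) ↔ l' = l := by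
        simp only [m1, m0, zero_add]
        exact n1_iff l' l
      simp only [this]
    rw [Finset.sum_congr rfl fun l' _ => h l']
    simp
  · rw [Fintype.sum_prod_type]
    refine Finset.sum_congr rfl fun p _ => ?_
    have h : ∀ k l', (if m1 L (some (p, k), l') = sg (-1) l then v (some (p, k), l') else 0)
        = if k = 0 then (if l' = p.1.2 then (if p.1.1 = l then v (some (p, k), l') else 0) else 0)
          else 0 := by
      intro k l'
      have h1 : (m1 L (some (p, k), l') = sg (-1) l) ↔ (p.1.1 = l ∧ (k : ℕ) = 0 ∧ l' = p.1.2) :=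
        c1_iff k p.2 l' l
      have h2 : ((k : ℕ) = 0) ↔ k = 0 := by
        rw [Fin.ext_iff]; rfl
      rw [h2] at h1
      simp only [h1]
      by_cases e1 : p.1.1 = l <;> by_cases e2 : k = 0 <;> by_cases e3 : l' = p.1.2 <;> simp_all
    simp_rw [h]
    simp

lemma coefB (v : T0 n L × Fin n → W) (p : Off n) (k : Fin L) :
    ∑ x, (if m1 L x = t2 k p.1.1 p.1.2 then v x else 0)
      = v (some (p, k.castSucc), p.1.1) + v (some (p, k.succ), p.1.2) := by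
  classical
  have hp : p.1.1 ≠ p.1.2 := p.2
  rw [Finset.sum_eq_add (some (p, k.castSucc), p.1.1) (some (p, k.succ), p.1.2)]
  · congr 1
    · rw [if_pos]
      exact (c2_iff _ _ p.2 p.2 _).mpr (Or.inl ⟨rfl, rfl, rfl, rfl⟩)
    · rw [if_pos]
      exact (c2_iff _ _ p.2 p.2 _).mpr (Or.inr ⟨rfl, rfl, rfl, rfl⟩)
  · intro h
    exact hp (congrArg Prod.snd h)
  · rintro ⟨t, l'⟩ - ⟨h1, h2⟩
    refine if_neg fun h => ?_
    rcases t with _ | ⟨q, k'⟩
    · simp only [m1, m0, zero_add] at h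
      exact n2_ne _ p.2 _ h
    · rcases (c2_iff _ _ q.2 p.2 _).mp h with ⟨e1, e2, e3, e4⟩ | ⟨e1, e2, e3, e4⟩
      · apply h1
        have hq : q = p := Subtype.ext (Prod.ext e1 e2)
        have hk : k' = k.castSucc := Fin.ext e3
        have e5 : l' = p.1.1 := e4
        rw [hq, hk, e5]
      · apply h2
        have hq : q = p := Subtype.ext (Prod.ext e1 e2)
        have hk : k' = k.succ := Fin.ext e3
        have e5 : l' = p.1.2 := e4
        rw [hq, hk, e5]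
  · intro h
    exact absurd (Finset.mem_univ _) h
  · intro h
    exact absurd (Finset.mem_univ _) h

lemma coefC (v : T0 n L × Fin n → W) (q : Tri n) (k : Fin L) :
    ∑ x, (if m1 L x = t3 k q.1.1 q.1.2.1 q.1.2.2 then v x else 0)
      = v (some (⟨(q.1.1, q.1.2.1), q.2.1⟩, k.succ), q.1.2.2) := by
  classical
  rw [Finset.sum_eq_single (some (⟨(q.1.1, q.1.2.1), q.2.1⟩, k.succ), q.1.2.2)]
  · rw [if_pos]
    exact (c3_iff _ _ q.2.1 q.2.1 q.2.2.1 q.2.2.2 _).mpr ⟨rfl, rfl, rfl, rfl⟩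
  · rintro ⟨t, l'⟩ - h1
    refine if_neg fun h => h1 ?_
    rcases t with _ | ⟨r, k'⟩
    · simp only [m1, m0, zero_add] at h
      exact absurd h (n3_ne _ q.2.1 q.2.2.2 _)
    · obtain ⟨e1, e2, e3, e4⟩ := (c3_iff _ _ r.2 q.2.1 q.2.2.1 q.2.2.2 _).mp h
      have hr : r = ⟨(q.1.1, q.1.2.1), q.2.1⟩ := Subtype.ext (Prod.ext e1 e2)
      have hk : k' = k.succ := Fin.ext e3
      have e5 : l' = q.1.2.2 := e4
      rw [hr, hk, e5]
  · intro h
    exact absurd (Finset.mem_univ _) h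

theorem coreZ [CompleteSpace W] (A B : Fin n → (W →L[ℂ] W)) (hB : ContrInf B)
    (hU : ∀ i, star (A i) * A i = 1) (hU' : ∀ i, A i * star (A i) = 1)
    (hc : ∀ i k, A i * B k = B k * A i) (t : ℝ) (L : ℕ) (ξ : W) :
    ((1 - t) ^ 2 + (((n : ℝ) - 1) * (1 + t ^ 2) - 2 * t + ((n : ℝ) - 1) * (n - 2) * t ^ 2)
          * ∑ k : Fin L, t ^ (2 * ((k : ℕ) + 1))) * ∑ k, ‖B k ξ‖ ^ 2
        + (2 * t * (1 - t) + n * t ^ 2 + 2 * t * ∑ k : Fin L, t ^ (2 * ((k : ℕ) + 1)))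
          * ‖∑ i, A i (B i ξ)‖ ^ 2
      ≤ (1 + ((n : ℝ) ^ 2 - n) * ∑ k : Fin (L + 1), t ^ (2 * ((k : ℕ) + 1))) * ‖ξ‖ ^ 2 := by
  have hA1 : ∀ i x, star (A i) (A i x) = x := fun i x =>
    congrArg (fun F : W →L[ℂ] W => F x) (hU i)
  have hA2 : ∀ i x, A i (star (A i) x) = x := fun i x =>
    congrArg (fun F : W →L[ℂ] W => F x) (hU' i)
  have hin : ∀ i x y, ⟪star (A i) x, y⟫_ℂ = ⟪x, A i y⟫_ℂ := by
    intro i x y
    rw [ContinuousLinearMap.star_eq_adjoint, ContinuousLinearMap.adjoint_inner_left]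
  have hN1 : ∀ i x, ‖A i x‖ = ‖x‖ := by
    intro i x
    have h : ⟪A i x, A i x⟫_ℂ = ⟪x, x⟫_ℂ := by rw [← hin, hA1]
    rw [inner_self_eq_norm_sq_to_K, inner_self_eq_norm_sq_to_K] at h
    have h2 : ‖A i x‖ ^ 2 = ‖x‖ ^ 2 := by exact_mod_cast h
    exact (sq_eq_sq₀ (norm_nonneg _) (norm_nonneg _)).mp h2
  have hN2 : ∀ i x, ‖star (A i) x‖ = ‖x‖ := by
    intro i x
    rw [← hN1 i (star (A i) x), hA2]
  have hN3 : ∀ i j (k : ℕ) x, ‖((star (A i) * A j) ^ k) x‖ = ‖x‖ := by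
    intro i j k
    induction k with
    | zero => intro x; rw [pow_zero]; rfl
    | succ k ih =>
      intro x
      rw [pow_succ]
      have : ((star (A i) * A j) ^ k * (star (A i) * A j)) x
          = ((star (A i) * A j) ^ k) (star (A i) (A j x)) := rfl
      rw [this, ih, hN2, hN1]
  have hcA : ∀ i k x, A i (B k x) = B k (A i x) := fun i k x =>
    congrArg (fun F : W →L[ℂ] W => F x) (hc i k)
  have hcS : ∀ i k x, star (A i) (B k x) = B k (star (A i) x) := by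
    intro i k x
    have h : A i (B k (star (A i) x)) = B k x := by rw [hcA, hA2]
    rw [← h, hA1]
  have hcP : ∀ i j (k : ℕ) l x, ((star (A i) * A j) ^ k) (B l x)
      = B l (((star (A i) * A j) ^ k) x) := by
    intro i j k l
    induction k with
    | zero => intro x; rw [pow_zero]; rfl
    | succ k ih =>
      intro x
      rw [pow_succ]
      have h1 : ∀ x, ((star (A i) * A j) ^ k * (star (A i) * A j)) x
          = ((star (A i) * A j) ^ k) (star (A i) (A j x)) := fun x => rfl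
      rw [h1, h1, hcA, hcS, ih]
  have hcw : ∀ (w : T0 n L) l x, wd A t L w (B l x) = B l (wd A t L w x) := by
    rintro (_ | ⟨p, k⟩) l x
    · rfl
    · simp only [wd, smul_apply]
      rw [hcP, map_smul]
  obtain ⟨y, hy⟩ : ∃ y, y = ∑ i, A i (B i ξ) := ⟨_, rfl⟩
  rw [← hy]
  obtain ⟨N, hN⟩ : ∃ N : ℕ, N = 2 * L + 5 := ⟨_, rfl⟩
  have : NeZero N := ⟨by omega⟩
  -- the vectors
  obtain ⟨zeta, hzeta⟩ : ∃ zeta : (Fin n → ZMod N) → W, zeta = fun s =>
      ∑ w : T0 n L, ch N (m0 L w) s • wd A t L w ξ := ⟨_, rfl⟩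
  obtain ⟨v, hv⟩ : ∃ v : T0 n L × Fin n → W, v = fun x => wd A t L x.1 (B x.2 ξ) := ⟨_, rfl⟩
  have hH : ∀ s, (∑ k, ch N (sg (-1) k) s • B k) (zeta s) = ∑ x, ch N (m1 L x) s • v x := by
    intro s
    have hBz : ∀ x, (∑ k, ch N (sg (-1) k) s • B k) x = ∑ k, ch N (sg (-1) k) s • B k x := by
      intro x
      simp [sum_apply]
    rw [Fintype.sum_prod_type, hzeta, hv]
    simp only
    rw [map_sum]
    refine Finset.sum_congr rfl fun w _ => ?_
    rw [map_smul, hBz, Finset.smul_sum]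
    refine Finset.sum_congr rfl fun k _ => ?_
    rw [smul_smul, ← ch_add, hcw]
    rfl
  have hbound : ∀ s, ‖∑ x, ch N (m1 L x) s • v x‖ ^ 2 ≤ ‖zeta s‖ ^ 2 := by
    intro s
    rw [← hH]
    have h2 := hB (fun k => ch N (sg (-1) k) s) (fun k => (norm_ch _ _).le)
    have h3 := (∑ k, ch N (sg (-1) k) s • B k).le_opNorm (zeta s)
    have h4 := h3.trans (mul_le_of_le_one_left (norm_nonneg _) h2)
    gcongr
  -- the right hand side
  have hwn : ∀ (p : Off n) (k : Fin (L + 1)) x, ‖wd A t L (some (p, k)) x‖ ^ 2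
      = t ^ (2 * ((k : ℕ) + 1)) * ‖x‖ ^ 2 := by
    intro p k x
    simp only [wd, smul_apply]
    rw [norm_smul, hN3, mul_pow, Complex.norm_real, Real.norm_eq_abs, sq_abs, ← pow_mul,
      mul_comm 2]
  have hR : ∑ s, ‖zeta s‖ ^ 2 = (N : ℝ) ^ n
      * ((1 + ((n : ℝ) ^ 2 - n) * ∑ k : Fin (L + 1), t ^ (2 * ((k : ℕ) + 1))) * ‖ξ‖ ^ 2) := by
    rw [hzeta, parsevalZ (m0 L) (m0_inj L) (m0_abs L) (by rw [hN]; push_cast; linarith),
      Fintype.sum_option, Fintype.sum_prod_type]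
    congr 1
    have h1 : ∑ p : Off n, ∑ k : Fin (L + 1), ‖wd A t L (some (p, k)) ξ‖ ^ 2
        = ((n : ℝ) ^ 2 - n) * ((∑ k : Fin (L + 1), t ^ (2 * ((k : ℕ) + 1))) * ‖ξ‖ ^ 2) := by
      have h2 : ∀ p : Off n, ∑ k : Fin (L + 1), ‖wd A t L (some (p, k)) ξ‖ ^ 2
          = (∑ k : Fin (L + 1), t ^ (2 * ((k : ℕ) + 1))) * ‖ξ‖ ^ 2 := by
        intro p
        rw [Finset.sum_mul]
        exact Finset.sum_congr rfl fun k _ => hwn p k ξ
      rw [Finset.sum_congr rfl fun p _ => h2 p]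
      have h6 := sum_split (n := n)
        (fun _ _ => (∑ k : Fin (L + 1), t ^ (2 * ((k : ℕ) + 1))) * ‖ξ‖ ^ 2)
      simp only [Finset.sum_const, Finset.card_univ, Fintype.card_fin, nsmul_eq_mul] at h6 ⊢
      linarith [h6]
    have h3 : ‖wd A t L none ξ‖ ^ 2 = ‖ξ‖ ^ 2 := rfl
    rw [h1, h3]
    ring
  -- the left hand side
  have hL := besselZ (N := N) (m1 L) v (m1_abs L) (by rw [hN]; push_cast; linarith)
    (nuZ L) (nuZ_inj L)
  have hLR := hL.trans (Finset.sum_le_sum fun s _ => hbound s)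
  rw [hR] at hLR
  have hNpos : (0 : ℝ) < (N : ℝ) ^ n := by
    have : (0 : ℝ) < N := by rw [hN]; positivity
    positivity
  have hfin := le_of_mul_le_mul_left hLR hNpos
  rw [Fintype.sum_sum_type, Fintype.sum_sum_type] at hfin
  have hc1 : ∀ l, ∑ x, (if m1 L x = sg (-1) l then v x else 0)
      = ((1 - t : ℝ) : ℂ) • B l ξ + ((t : ℝ) : ℂ) • star (A l) y := by
    intro l
    rw [coefA, hv]
    simp only
    have h1 : ∀ p : Off n, (if p.1.1 = l then wd A t L (some (p, 0)) (B p.1.2 ξ) else 0)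
        = if p.1.1 = l then ((t : ℝ) : ℂ) • star (A p.1.1) (A p.1.2 (B p.1.2 ξ)) else 0 := by
      intro p
      by_cases h : p.1.1 = l
      · rw [if_pos h, if_pos h]
        simp only [wd, smul_apply, Fin.val_zero, zero_add, pow_one]
        rfl
      · rw [if_neg h, if_neg h]
    rw [Finset.sum_congr rfl fun p _ => h1 p]
    have h2 := sum_split (n := n)
      (fun i j => if i = l then ((t : ℝ) : ℂ) • star (A i) (A j (B j ξ)) else 0)
    have h3 : ∑ i, ∑ j, (if i = l then ((t : ℝ) : ℂ) • star (A i) (A j (B j ξ)) else 0)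
        = ((t : ℝ) : ℂ) • star (A l) y := by
      rw [Finset.sum_comm]
      simp only [Finset.sum_ite_eq', Finset.mem_univ, if_true]
      rw [← Finset.smul_sum, hy, map_sum]
    have h4 : ∑ i, (if i = l then ((t : ℝ) : ℂ) • star (A i) (A i (B i ξ)) else 0)
        = ((t : ℝ) : ℂ) • B l ξ := by
      simp only [Finset.sum_ite_eq', Finset.mem_univ, if_true, hA1]
    rw [h3, h4] at h2
    have h5 : wd A t L none (B l ξ) = B l ξ := rfl
    rw [h5, h2]
    push_cast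
    rw [sub_smul, one_smul]
    abel
  have hsq1 : ∀ l, ‖((1 - t : ℝ) : ℂ) • B l ξ + ((t : ℝ) : ℂ) • star (A l) y‖ ^ 2
      = (1 - t) ^ 2 * ‖B l ξ‖ ^ 2 + 2 * t * (1 - t) * (⟪A l (B l ξ), y⟫_ℂ).re
        + t ^ 2 * ‖y‖ ^ 2 := by
    intro l
    have h4 : ⟪B l ξ, star (A l) y⟫_ℂ = ⟪A l (B l ξ), y⟫_ℂ := by
      rw [← inner_conj_symm, hin, inner_conj_symm]
    have h5 : RCLike.re ⟪((1 - t : ℝ) : ℂ) • B l ξ, ((t : ℝ) : ℂ) • star (A l) y⟫_ℂ
        = (1 - t) * (t * (⟪A l (B l ξ), y⟫_ℂ).re) := by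
      rw [inner_smul_left, inner_smul_right, h4, Complex.conj_ofReal]
      change (((1 - t : ℝ) : ℂ) * (((t : ℝ) : ℂ) * ⟪A l (B l ξ), y⟫_ℂ)).re = _
      rw [Complex.re_ofReal_mul, Complex.re_ofReal_mul]
    rw [norm_add_sq (𝕜 := ℂ), h5, norm_smul, norm_smul, mul_pow, mul_pow, Complex.norm_real,
      Complex.norm_real, Real.norm_eq_abs, Real.norm_eq_abs, sq_abs, sq_abs, hN2]
    ring
  have hc2 : ∀ (p : Off n) (k : Fin L),
      ‖∑ x, (if m1 L x = t2 k p.1.1 p.1.2 then v x else 0)‖ ^ 2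
      = t ^ (2 * ((k : ℕ) + 1)) * (‖B p.1.1 ξ‖ ^ 2
        + 2 * t * (⟪A p.1.1 (B p.1.1 ξ), A p.1.2 (B p.1.2 ξ)⟫_ℂ).re
        + t ^ 2 * ‖B p.1.2 ξ‖ ^ 2) := by
    intro p k
    rw [coefB, hv]
    simp only
    have h1 : wd A t L (some (p, k.castSucc)) (B p.1.1 ξ) + wd A t L (some (p, k.succ)) (B p.1.2 ξ)
        = wd A t L (some (p, k.castSucc)) (star (A p.1.1) (A p.1.1 (B p.1.1 ξ)
          + ((t : ℝ) : ℂ) • A p.1.2 (B p.1.2 ξ))) := by
      rw [map_add, map_add, hA1]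
      congr 1
      simp only [wd, smul_apply, Fin.val_succ, Fin.val_castSucc]
      rw [map_smul, map_smul, smul_smul]
      have h2 : ((star (A p.1.1) * A p.1.2) ^ ((k : ℕ) + 1 + 1)) (B p.1.2 ξ)
          = ((star (A p.1.1) * A p.1.2) ^ ((k : ℕ) + 1)) (star (A p.1.1) (A p.1.2 (B p.1.2 ξ))) := by
        rw [pow_succ]
        rfl
      rw [h2]
      congr 1
      push_cast
      ring
    rw [h1, hwn, hN2]
    congr 1
    have h5 : RCLike.re ⟪A p.1.1 (B p.1.1 ξ), ((t : ℝ) : ℂ) • A p.1.2 (B p.1.2 ξ)⟫_ℂ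
        = t * (⟪A p.1.1 (B p.1.1 ξ), A p.1.2 (B p.1.2 ξ)⟫_ℂ).re := by
      rw [inner_smul_right]
      change (((t : ℝ) : ℂ) * ⟪A p.1.1 (B p.1.1 ξ), A p.1.2 (B p.1.2 ξ)⟫_ℂ).re = _
      rw [Complex.re_ofReal_mul]
    rw [norm_add_sq (𝕜 := ℂ), h5, norm_smul, mul_pow, Complex.norm_real, Real.norm_eq_abs,
      sq_abs, hN1, hN1]
    ring
  have hc3 : ∀ (q : Tri n) (k : Fin L),
      ‖∑ x, (if m1 L x = t3 k q.1.1 q.1.2.1 q.1.2.2 then v x else 0)‖ ^ 2
      = t ^ (2 * ((k : ℕ) + 1)) * (t ^ 2 * ‖B q.1.2.2 ξ‖ ^ 2) := by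
    intro q k
    rw [coefC, hv]
    simp only
    rw [hwn, Fin.val_succ, ← mul_assoc, ← pow_add]
    ring_nf
  obtain ⟨P, hP⟩ : ∃ P : ℝ, P = ∑ k, ‖B k ξ‖ ^ 2 := ⟨_, rfl⟩
  obtain ⟨σ, hσ⟩ : ∃ σ : ℝ, σ = ∑ k : Fin L, t ^ (2 * ((k : ℕ) + 1)) := ⟨_, rfl⟩
  have hyre : (⟪y, y⟫_ℂ).re = ‖y‖ ^ 2 := by
    rw [inner_self_eq_norm_sq_to_K]
    norm_cast
  have hS1 : ∑ l, ‖∑ x, (if m1 L x = sg (-1) l then v x else 0)‖ ^ 2
      = (1 - t) ^ 2 * P + 2 * t * (1 - t) * ‖y‖ ^ 2 + n * (t ^ 2 * ‖y‖ ^ 2) := by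
    rw [Finset.sum_congr rfl fun l _ => by rw [hc1 l, hsq1 l], Finset.sum_add_distrib,
      Finset.sum_add_distrib, ← Finset.mul_sum, ← Finset.mul_sum, ← hP]
    have h6 : ∑ l, (⟪A l (B l ξ), y⟫_ℂ).re = ‖y‖ ^ 2 := by
      rw [← hyre]
      conv_rhs => rw [hy, sum_inner, Complex.re_sum]
      rw [hy]
    rw [h6]
    simp
  have hS2 : ∑ x : Off n × Fin L,
      ‖∑ x', (if m1 L x' = t2 x.2 x.1.1.1 x.1.1.2 then v x' else 0)‖ ^ 2
      = σ * (((n : ℝ) - 1) * P + 2 * t * (‖y‖ ^ 2 - P) + t ^ 2 * (((n : ℝ) - 1) * P)) := by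
    rw [Fintype.sum_prod_type, Finset.sum_comm]
    simp_rw [hc2, ← Finset.mul_sum]
    rw [← Finset.sum_mul, ← hσ]
    congr 1
    rw [Finset.sum_add_distrib, Finset.sum_add_distrib, ← Finset.mul_sum, ← Finset.mul_sum]
    have e1 : ∑ p : Off n, ‖B p.1.1 ξ‖ ^ 2 = ((n : ℝ) - 1) * P := by
      have h9 := sum_split (n := n) (fun i _ => ‖B i ξ‖ ^ 2)
      simp only [Finset.sum_const, Finset.card_univ, Fintype.card_fin, nsmul_eq_mul] at h9
      rw [← Finset.mul_sum, ← hP] at h9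
      linarith
    have e2 : ∑ p : Off n, ‖B p.1.2 ξ‖ ^ 2 = ((n : ℝ) - 1) * P := by
      have h9 := sum_split (n := n) (fun _ j => ‖B j ξ‖ ^ 2)
      simp only [← hP, Finset.sum_const, Finset.card_univ, Fintype.card_fin, nsmul_eq_mul] at h9
      linarith
    have e3 : ∑ p : Off n, (⟪A p.1.1 (B p.1.1 ξ), A p.1.2 (B p.1.2 ξ)⟫_ℂ).re = ‖y‖ ^ 2 - P := by
      have h9 := sum_split (n := n) (fun i j => (⟪A i (B i ξ), A j (B j ξ)⟫_ℂ).re)
      have h10 : ∑ i, ∑ j, (⟪A i (B i ξ), A j (B j ξ)⟫_ℂ).re = ‖y‖ ^ 2 := by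
        rw [← hyre, hy, sum_inner, Complex.re_sum]
        refine Finset.sum_congr rfl fun i _ => ?_
        rw [inner_sum, Complex.re_sum]
      have h11 : ∑ i, (⟪A i (B i ξ), A i (B i ξ)⟫_ℂ).re = P := by
        rw [hP]
        refine Finset.sum_congr rfl fun i _ => ?_
        have : (⟪A i (B i ξ), A i (B i ξ)⟫_ℂ).re = ‖A i (B i ξ)‖ ^ 2 := by
          rw [inner_self_eq_norm_sq_to_K]
          norm_cast
        rw [this, hN1]
      rw [h10, h11] at h9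
      linarith
    rw [e1, e2, e3]
  have hS3 : ∑ x : Tri n × Fin L,
      ‖∑ x', (if m1 L x' = t3 x.2 x.1.1.1 x.1.1.2.1 x.1.1.2.2 then v x' else 0)‖ ^ 2
      = σ * (t ^ 2 * (((n : ℝ) - 1) * (n - 2) * P)) := by
    rw [Fintype.sum_prod_type, Finset.sum_comm]
    simp_rw [hc3, ← Finset.mul_sum]
    rw [← Finset.sum_mul, ← hσ, tri_sum (fun c => ‖B c ξ‖ ^ 2), ← hP]
  have key : ∑ l, ‖∑ x, (if m1 L x = sg (-1) l then v x else 0)‖ ^ 2
      + (∑ x : Off n × Fin L,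
          ‖∑ x', (if m1 L x' = t2 x.2 x.1.1.1 x.1.1.2 then v x' else 0)‖ ^ 2
        + ∑ x : Tri n × Fin L,
          ‖∑ x', (if m1 L x' = t3 x.2 x.1.1.1 x.1.1.2.1 x.1.1.2.2 then v x' else 0)‖ ^ 2)
      ≤ (1 + ((n : ℝ) ^ 2 - n) * ∑ k : Fin (L + 1), t ^ (2 * ((k : ℕ) + 1))) * ‖ξ‖ ^ 2 := hfin
  rw [hS1, hS2, hS3] at key
  rw [← hP, ← hσ]
  refine le_trans (le_of_eq ?_) key
  ring

end Pool.Agent.Lib.H39T
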