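import Mathlib

/-! Fourier analysis on `(ZMod 4)^n`: orthogonality and Parseval for vector valued sums. -/

namespace Pool.Agent.Lib.H39T

open scoped ComplexConjugate InnerProductSpace

variable {n : ℕ}

/-- the characters of `(ZMod 4)^n` -/
noncomputable def chi (m s : Fin n → ZMod 4) : ℂ :=
  ∏ i, (ZMod.stdAddChar (N := 4) (s i * m i) : ℂ)

lemma chi_add (m m' s : Fin n → ZMod 4) : chi (m + m') s = chi m s * chi m' s := by
  simp [chi, mul_add, AddChar.map_add_eq_mul, Finset.prod_mul_distrib]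

lemma chi_zero (s : Fin n → ZMod 4) : chi 0 s = 1 := by
  simp [chi]

lemma chi_conj (m s : Fin n → ZMod 4) : conj (chi m s) = chi (-m) s := by
  unfold chi
  rw [map_prod]
  refine Finset.prod_congr rfl fun i _ => ?_
  rw [Pi.neg_apply, mul_neg, AddChar.map_neg_eq_conj]

lemma norm_chi (m s : Fin n → ZMod 4) : ‖chi m s‖ = 1 := by
  unfold chi
  rw [norm_prod]
  exact Finset.prod_eq_one fun i _ => AddChar.norm_apply _ _

lemma sum_chi (m : Fin n → ZMod 4) :
    ∑ s : Fin n → ZMod 4, chi m s = if m = 0 then (4 : ℂ) ^ n else 0 := by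
  have h : ∑ s : Fin n → ZMod 4, chi m s
      = ∏ i, ∑ x : ZMod 4, (ZMod.stdAddChar (N := 4) (x * m i) : ℂ) := by
    rw [Finset.prod_univ_sum, Fintype.piFinset_univ]
    rfl
  rw [h]
  have h2 : ∀ i, ∑ x : ZMod 4, (ZMod.stdAddChar (N := 4) (x * m i) : ℂ)
      = if m i = 0 then (4 : ℂ) else 0 := by
    intro i
    have := AddChar.sum_mulShift (m i) (ZMod.isPrimitive_stdAddChar 4)
    rw [this]
    simp
  rw [Finset.prod_congr rfl fun i _ => h2 i]
  by_cases hm : m = 0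
  · subst hm
    simp
  · rw [if_neg hm]
    obtain ⟨i, hi⟩ := Function.ne_iff.mp hm
    exact Finset.prod_eq_zero (Finset.mem_univ i) (if_neg hi)

variable {W : Type*} [NormedAddCommGroup W] [InnerProductSpace ℂ W]

theorem parseval {T : Type*} [Fintype T] (μ : T → (Fin n → ZMod 4)) (hμ : Function.Injective μ)
    (v : T → W) :
    ∑ s : Fin n → ZMod 4, ‖∑ t, chi (μ t) s • v t‖ ^ 2 = 4 ^ n * ∑ t, ‖v t‖ ^ 2 := by
  classical
  have h : ((∑ s : Fin n → ZMod 4, ‖∑ t, chi (μ t) s • v t‖ ^ 2 : ℝ) : ℂ)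
      = ((4 ^ n * ∑ t, ‖v t‖ ^ 2 : ℝ) : ℂ) := by
    push_cast
    have e1 : ∀ s : Fin n → ZMod 4, ((‖∑ t, chi (μ t) s • v t‖ : ℂ)) ^ 2
        = ∑ t, ∑ t', chi (μ t' - μ t) s * ⟪v t, v t'⟫_ℂ := by
      intro s
      have e0 : ((‖∑ t, chi (μ t) s • v t‖ : ℂ)) ^ 2
          = ⟪∑ t, chi (μ t) s • v t, ∑ t, chi (μ t) s • v t⟫_ℂ := by
        rw [inner_self_eq_norm_sq_to_K]; rfl
      rw [e0, sum_inner]
      refine Finset.sum_congr rfl fun t _ => ?_
      rw [inner_sum]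
      refine Finset.sum_congr rfl fun t' _ => ?_
      rw [inner_smul_left, inner_smul_right, chi_conj, ← mul_assoc, ← chi_add, sub_eq_add_neg,
        add_comm (-μ t)]
    rw [Finset.sum_congr rfl fun s _ => e1 s, Finset.sum_comm, Finset.mul_sum]
    refine Finset.sum_congr rfl fun t _ => ?_
    rw [Finset.sum_comm]
    have e2 : ∀ t', ∑ s : Fin n → ZMod 4, chi (μ t' - μ t) s * ⟪v t, v t'⟫_ℂ
        = if t' = t then (4 : ℂ) ^ n * ⟪v t, v t'⟫_ℂ else 0 := by
      intro t'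
      rw [← Finset.sum_mul, sum_chi]
      by_cases h : t' = t
      · subst h; simp
      · rw [if_neg h, if_neg (fun h' => h (hμ (sub_eq_zero.mp h'))), zero_mul]
    rw [Finset.sum_congr rfl fun t' _ => e2 t', Finset.sum_ite_eq' Finset.univ t]
    rw [if_pos (Finset.mem_univ t), inner_self_eq_norm_sq_to_K]
    rfl
  exact_mod_cast h

/-- Bessel: the coefficients at the different frequencies of an injective family. -/
theorem bessel {T K : Type*} [Fintype T] [Fintype K] (μ : T → (Fin n → ZMod 4)) (v : T → W)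
    (ν : K → (Fin n → ZMod 4)) (hν : Function.Injective ν) :
    4 ^ n * ∑ k, ‖∑ t, (if μ t = ν k then v t else 0)‖ ^ 2
      ≤ ∑ s : Fin n → ZMod 4, ‖∑ t, chi (μ t) s • v t‖ ^ 2 := by
  classical
  have h1 : ∀ s : Fin n → ZMod 4, ∑ t, chi (μ t) s • v t
      = ∑ g : Fin n → ZMod 4, chi g s • ∑ t, (if μ t = g then v t else 0) := by
    intro s
    simp_rw [Finset.smul_sum, smul_ite, smul_zero]
    rw [Finset.sum_comm]
    refine Finset.sum_congr rfl fun t _ => ?_
    rw [Finset.sum_ite_eq, if_pos (Finset.mem_univ _)]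
  have h2 : ∑ s : Fin n → ZMod 4, ‖∑ t, chi (μ t) s • v t‖ ^ 2
      = 4 ^ n * ∑ g : Fin n → ZMod 4, ‖∑ t, (if μ t = g then v t else 0)‖ ^ 2 := by
    rw [← parseval (fun g => g) (fun a b h => h)]
    exact Finset.sum_congr rfl fun s _ => by rw [h1 s]
  rw [h2]
  gcongr
  calc ∑ k, ‖∑ t, (if μ t = ν k then v t else 0)‖ ^ 2
      = ∑ g ∈ Finset.univ.map ⟨ν, hν⟩, ‖∑ t, (if μ t = g then v t else 0)‖ ^ 2 := by
        rw [Finset.sum_map]; rfl
    _ ≤ _ := Finset.sum_le_sum_of_subset_of_nonneg (Finset.subset_univ _)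
        fun _ _ _ => by positivity

end Pool.Agent.Lib.H39T
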