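import Mathlib

/-! Fourier analysis on `(ZMod N)^n` with integer frequencies: Parseval and Bessel for vector
valued sums. -/

namespace Pool.Agent.Lib.H39T

open scoped ComplexConjugate InnerProductSpace

variable {n : ℕ}

/-- the characters of `(ZMod N)^n`, with integer frequencies -/
noncomputable def ch (N : ℕ) [NeZero N] (m : Fin n → ℤ) (s : Fin n → ZMod N) : ℂ :=
  ∏ i, (ZMod.stdAddChar (N := N) (s i * (m i : ZMod N)) : ℂ)

variable {N : ℕ} [NeZero N]

lemma ch_add (m m' : Fin n → ℤ) (s : Fin n → ZMod N) :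
    ch N (m + m') s = ch N m s * ch N m' s := by
  simp [ch, mul_add, AddChar.map_add_eq_mul, Finset.prod_mul_distrib]

lemma ch_zero (s : Fin n → ZMod N) : ch N 0 s = 1 := by
  simp [ch]

lemma ch_conj (m : Fin n → ℤ) (s : Fin n → ZMod N) : conj (ch N m s) = ch N (-m) s := by
  unfold ch
  rw [map_prod]
  refine Finset.prod_congr rfl fun i _ => ?_
  rw [Pi.neg_apply, Int.cast_neg, mul_neg, AddChar.map_neg_eq_conj]

lemma norm_ch (m : Fin n → ℤ) (s : Fin n → ZMod N) : ‖ch N m s‖ = 1 := by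
  unfold ch
  rw [norm_prod]
  exact Finset.prod_eq_one fun i _ => AddChar.norm_apply _ _

lemma sum_ch_zero : ∑ s : Fin n → ZMod N, ch N 0 s = (N : ℂ) ^ n := by
  simp [ch_zero, ZMod.card]

lemma sum_ch_ne (m : Fin n → ℤ) {i : Fin n} (hi : (m i : ZMod N) ≠ 0) :
    ∑ s : Fin n → ZMod N, ch N m s = 0 := by
  have h : ∑ s : Fin n → ZMod N, ch N m s
      = ∏ i, ∑ x : ZMod N, (ZMod.stdAddChar (N := N) (x * (m i : ZMod N)) : ℂ) := by
    rw [Finset.prod_univ_sum, Fintype.piFinset_univ]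
    rfl
  rw [h]
  refine Finset.prod_eq_zero (Finset.mem_univ i) ?_
  rw [AddChar.sum_mulShift (m i : ZMod N) (ZMod.isPrimitive_stdAddChar N), if_neg hi]
  simp

variable {W : Type*} [NormedAddCommGroup W] [InnerProductSpace ℂ W]

theorem parsevalZ {T : Type*} [Fintype T] (μ : T → (Fin n → ℤ)) (hμ : Function.Injective μ)
    {R : ℤ} (hb : ∀ t i, |μ t i| ≤ R) (hR : 2 * R < N) (v : T → W) :
    ∑ s : Fin n → ZMod N, ‖∑ t, ch N (μ t) s • v t‖ ^ 2 = (N : ℝ) ^ n * ∑ t, ‖v t‖ ^ 2 := by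
  classical
  have h : ((∑ s : Fin n → ZMod N, ‖∑ t, ch N (μ t) s • v t‖ ^ 2 : ℝ) : ℂ)
      = (((N : ℝ) ^ n * ∑ t, ‖v t‖ ^ 2 : ℝ) : ℂ) := by
    push_cast
    have e1 : ∀ s : Fin n → ZMod N, ((‖∑ t, ch N (μ t) s • v t‖ : ℂ)) ^ 2
        = ∑ t, ∑ t', ch N (μ t' - μ t) s * ⟪v t, v t'⟫_ℂ := by
      intro s
      have e0 : ((‖∑ t, ch N (μ t) s • v t‖ : ℂ)) ^ 2
          = ⟪∑ t, ch N (μ t) s • v t, ∑ t, ch N (μ t) s • v t⟫_ℂ := by
        rw [inner_self_eq_norm_sq_to_K]; rfl
      rw [e0, sum_inner]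
      refine Finset.sum_congr rfl fun t _ => ?_
      rw [inner_sum]
      refine Finset.sum_congr rfl fun t' _ => ?_
      rw [inner_smul_left, inner_smul_right, ch_conj, ← mul_assoc, ← ch_add, sub_eq_add_neg,
        add_comm (-μ t)]
    rw [Finset.sum_congr rfl fun s _ => e1 s, Finset.sum_comm, Finset.mul_sum]
    refine Finset.sum_congr rfl fun t _ => ?_
    rw [Finset.sum_comm]
    have e2 : ∀ t', ∑ s : Fin n → ZMod N, ch N (μ t' - μ t) s * ⟪v t, v t'⟫_ℂ
        = if t' = t then (N : ℂ) ^ n * ⟪v t, v t'⟫_ℂ else 0 := by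
      intro t'
      rw [← Finset.sum_mul]
      by_cases h : t' = t
      · subst h
        rw [sub_self, sum_ch_zero, if_pos rfl]
      · rw [if_neg h]
        have hne : μ t' ≠ μ t := fun h' => h (hμ h')
        obtain ⟨i, hi⟩ := Function.ne_iff.mp hne
        rw [sum_ch_ne (i := i), zero_mul]
        intro h0
        rw [ZMod.intCast_zmod_eq_zero_iff_dvd] at h0
        have h1 : μ t' i - μ t i ≠ 0 := sub_ne_zero.mpr hi
        have h2 := Int.le_of_dvd (abs_pos.mpr h1) ((dvd_abs _ _).mpr h0)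
        have h3 := abs_sub (μ t' i) (μ t i)
        have h4 := hb t' i
        have h5 := hb t i
        linarith
    rw [Finset.sum_congr rfl fun t' _ => e2 t', Finset.sum_ite_eq' Finset.univ t]
    rw [if_pos (Finset.mem_univ t), inner_self_eq_norm_sq_to_K]
    rfl
  exact_mod_cast h

/-- Bessel: the coefficients at the different frequencies of an injective family. -/
theorem besselZ {T K : Type*} [Fintype T] [Fintype K] (μ : T → (Fin n → ℤ)) (v : T → W)
    {R : ℤ} (hb : ∀ t i, |μ t i| ≤ R) (hR : 2 * R < N)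
    (ν : K → (Fin n → ℤ)) (hν : Function.Injective ν) :
    (N : ℝ) ^ n * ∑ k, ‖∑ t, (if μ t = ν k then v t else 0)‖ ^ 2
      ≤ ∑ s : Fin n → ZMod N, ‖∑ t, ch N (μ t) s • v t‖ ^ 2 := by
  classical
  have h1 : ∀ s : Fin n → ZMod N, ∑ t, ch N (μ t) s • v t
      = ∑ g : (Finset.univ.image μ : Finset (Fin n → ℤ)),
        ch N (g : Fin n → ℤ) s • ∑ t, (if μ t = g then v t else 0) := by
    intro s
    simp_rw [Finset.smul_sum, smul_ite, smul_zero]
    rw [Finset.sum_comm]
    refine Finset.sum_congr rfl fun t _ => ?_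
    rw [Finset.sum_eq_single (⟨μ t, Finset.mem_image_of_mem μ (Finset.mem_univ t)⟩ :
      (Finset.univ.image μ : Finset (Fin n → ℤ)))]
    · rw [if_pos rfl]
    · intro g _ hg
      rw [if_neg]
      intro h
      exact hg (Subtype.ext h.symm)
    · intro h
      exact absurd (Finset.mem_univ _) h
  have h2 : ∑ s : Fin n → ZMod N, ‖∑ t, ch N (μ t) s • v t‖ ^ 2
      = (N : ℝ) ^ n * ∑ g : (Finset.univ.image μ : Finset (Fin n → ℤ)),
        ‖∑ t, (if μ t = (g : Fin n → ℤ) then v t else 0)‖ ^ 2 := by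
    rw [← parsevalZ (N := N) (fun g : (Finset.univ.image μ : Finset (Fin n → ℤ)) =>
      (g : Fin n → ℤ)) Subtype.val_injective (R := R) ?_ hR]
    · exact Finset.sum_congr rfl fun s _ => by rw [h1 s]
    · rintro ⟨g, hg⟩ i
      obtain ⟨t, -, rfl⟩ := Finset.mem_image.mp hg
      exact hb t i
  rw [h2]
  gcongr
  rw [Finset.sum_coe_sort (Finset.univ.image μ)
    (fun g => ‖∑ t, (if μ t = g then v t else 0)‖ ^ 2)]
  calc ∑ k, ‖∑ t, (if μ t = ν k then v t else 0)‖ ^ 2
      = ∑ g ∈ Finset.univ.map ⟨ν, hν⟩, ‖∑ t, (if μ t = g then v t else 0)‖ ^ 2 := by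
        rw [Finset.sum_map]; rfl
    _ = ∑ g ∈ (Finset.univ.map ⟨ν, hν⟩).filter (fun g => g ∈ Finset.univ.image μ),
          ‖∑ t, (if μ t = g then v t else 0)‖ ^ 2 := by
        refine (Finset.sum_filter_of_ne fun g _ hg => ?_).symm
        by_contra hgi
        apply hg
        have : ∑ t, (if μ t = g then v t else 0) = 0 := by
          refine Finset.sum_eq_zero fun t _ => if_neg fun h => hgi ?_
          rw [← h]
          exact Finset.mem_image_of_mem μ (Finset.mem_univ t)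
        rw [this]
        simp
    _ ≤ _ := by
        refine Finset.sum_le_sum_of_subset_of_nonneg ?_ fun _ _ _ => by positivity
        intro g hg
        exact (Finset.mem_filter.mp hg).2

end Pool.Agent.Lib.H39T
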