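import Pool.Agent.Lib.H39T.Four

/-! The frequencies which occur in the third order argument. -/

namespace Pool.Agent.Lib.H39T

variable {n : ℕ}

/-- the unit vectors of `(ZMod 4)^n` -/
def ee (k : Fin n) : Fin n → ZMod 4 := fun i => if i = k then 1 else 0

lemma ee_self (k : Fin n) : ee k k = 1 := if_pos rfl

lemma ee_ne {i k : Fin n} (h : i ≠ k) : ee k i = 0 := if_neg h

lemma ee_cases (k i : Fin n) : (i = k ∧ ee k i = 1) ∨ (i ≠ k ∧ ee k i = 0) := by
  by_cases h : i = k
  · exact Or.inl ⟨h, by rw [h, ee_self]⟩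
  · exact Or.inr ⟨h, ee_ne h⟩

lemma ee_inj {j k : Fin n} (h : ee j = ee k) : j = k := by
  by_contra hjk
  have := congrFun h j
  rw [ee_self, ee_ne hjk] at this
  exact absurd this (by decide)

lemma cond1 (i j k l : Fin n) :
    -ee i + ee j - ee k = -ee l ↔ (i = j ∧ k = l) ∨ (i = l ∧ j = k) := by
  constructor
  · intro h
    by_cases hij : i = j
    · subst hij
      left
      refine ⟨rfl, ee_inj ?_⟩
      have : -ee k = -ee l := by rw [← h]; abel
      exact neg_injective this
    · by_cases hil : i = l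
      · subst hil
        right
        refine ⟨rfl, ee_inj ?_⟩
        have h3 : ee j - ee k = 0 := by
          have h2 : -ee i + ee j - ee k + ee i = 0 := by rw [h]; abel
          rw [← h2]; abel
        exact sub_eq_zero.mp h3
      · exfalso
        have h1 := congrFun h i
        simp only [Pi.add_apply, Pi.sub_apply, Pi.neg_apply, ee_self, ee_ne hij, ee_ne hil] at h1
        rcases ee_cases k i with ⟨_, h2⟩ | ⟨_, h2⟩ <;> rw [h2] at h1 <;>
          exact absurd h1 (by decide)
  · rintro (⟨rfl, rfl⟩ | ⟨rfl, rfl⟩) <;> abel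

lemma cond2 {a b : Fin n} (hab : a ≠ b) (i j k : Fin n) :
    -ee i + ee j - ee k = -ee a - ee a + ee b ↔ i = a ∧ k = a ∧ j = b := by
  constructor
  · intro h
    have h1 := congrFun h a
    simp only [Pi.add_apply, Pi.sub_apply, Pi.neg_apply, ee_self, ee_ne hab] at h1
    rcases ee_cases i a with ⟨hi, h2⟩ | ⟨_, h2⟩ <;> rcases ee_cases j a with ⟨_, h3⟩ | ⟨_, h3⟩ <;>
      rcases ee_cases k a with ⟨hk, h4⟩ | ⟨_, h4⟩ <;> rw [h2, h3, h4] at h1 <;>
      first
      | exact absurd h1 (by decide)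
      | skip
    subst hi
    subst hk
    refine ⟨rfl, rfl, ee_inj ?_⟩
    have h5 : -ee a + ee j - ee a + (ee a + ee a) = -ee a - ee a + ee b + (ee a + ee a) := by
      rw [h]
    have e1 : -ee a + ee j - ee a + (ee a + ee a) = ee j := by abel
    have e2 : -ee a - ee a + ee b + (ee a + ee a) = ee b := by abel
    rwa [e1, e2] at h5
  · rintro ⟨rfl, rfl, rfl⟩
    abel

lemma cond3 {a b : Fin n} (hab : a ≠ b) (k : Fin n) : -ee k ≠ -ee a - ee a + ee b := by
  intro h
  have h1 := congrFun h a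
  simp only [Pi.add_apply, Pi.sub_apply, Pi.neg_apply, ee_self, ee_ne hab] at h1
  rcases ee_cases k a with ⟨_, h2⟩ | ⟨_, h2⟩ <;> rw [h2] at h1 <;>
    exact absurd h1 (by decide)

/-- ordered pairs of different indices -/
abbrev Off (n : ℕ) : Type := {p : Fin n × Fin n // p.1 ≠ p.2}

/-- the modes used on the left -/
def nu : Fin n ⊕ Off n → (Fin n → ZMod 4)
  | Sum.inl k => -ee k
  | Sum.inr p => -ee p.1.1 - ee p.1.1 + ee p.1.2

lemma nu_inj : Function.Injective (nu (n := n)) := by
  rintro (k | ⟨⟨a, b⟩, hab⟩) (l | ⟨⟨c, d⟩, hcd⟩) h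
  · exact congrArg _ (ee_inj (neg_injective h))
  · exact absurd h (cond3 hcd k)
  · exact absurd h.symm (cond3 hab l)
  · simp only [nu] at h
    dsimp only at hab hcd h
    have h1 := (cond2 hab c d c).mp (by rw [h]; abel)
    obtain ⟨rfl, -, rfl⟩ := h1
    rfl

/-- the modes used on the right -/
def mu' : Option (Off n) → (Fin n → ZMod 4)
  | none => 0
  | some p => -ee p.1.1 + ee p.1.2

lemma mu'_inj : Function.Injective (mu' (n := n)) := by
  rintro (_ | ⟨⟨a, b⟩, hab⟩) (_ | ⟨⟨c, d⟩, hcd⟩) h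
  · rfl
  · exfalso
    simp only [mu'] at h
    have h1 := congrFun h c
    simp only [Pi.zero_apply, Pi.add_apply, Pi.neg_apply, ee_self, ee_ne hcd] at h1
    exact absurd h1 (by decide)
  · exfalso
    simp only [mu'] at h
    have h1 := congrFun h a
    simp only [Pi.zero_apply, Pi.add_apply, Pi.neg_apply, ee_self, ee_ne hab] at h1
    exact absurd h1 (by decide)
  · simp only [mu'] at h
    dsimp only at hab hcd h
    have h1 := (cond2 hab c d a).mp (by
      have : -ee c + ee d - ee a = (-ee c + ee d) - ee a := rfl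
      rw [this, ← h]; abel)
    obtain ⟨rfl, -, rfl⟩ := h1
    rfl

lemma sum_split {M : Type*} [AddCommMonoid M] (g : Fin n → Fin n → M) :
    ∑ i, ∑ j, g i j = ∑ i, g i i + ∑ p : Off n, g p.1.1 p.1.2 := by
  classical
  rw [← Fintype.sum_prod_type' (f := fun i j => g i j),
    ← Fintype.sum_subtype_add_sum_subtype (fun p : Fin n × Fin n => p.1 = p.2)]
  congr 1
  refine Fintype.sum_equiv ⟨fun p => p.1.1, fun i => ⟨(i, i), rfl⟩, ?_, ?_⟩ _ _ ?_
  · rintro ⟨⟨i, j⟩, hij⟩
    simp only at hij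
    subst hij
    rfl
  · intro i
    rfl
  · rintro ⟨⟨i, j⟩, hij⟩
    simp only at hij
    subst hij
    rfl

end Pool.Agent.Lib.H39T
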