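import Pool.Agent.Lib.H39T.Modes
import Pool.Agent.Lib.H39T.FourZ

/-! The integer frequencies. -/

namespace Pool.Agent.Lib.H39T

variable {n : ℕ}

/-- `a` at the place `j`, zero elsewhere -/
def sg (a : ℤ) (j : Fin n) : Fin n → ℤ := fun c => if c = j then a else 0

lemma sg_self (a : ℤ) (j : Fin n) : sg a j j = a := if_pos rfl

lemma sg_ne (a : ℤ) {c j : Fin n} (h : c ≠ j) : sg a j c = 0 := if_neg h

lemma sg_cases (j c : Fin n) : (c = j ∧ ∀ a, sg a j c = a) ∨ (c ≠ j ∧ ∀ a, sg a j c = 0) := by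
  by_cases h : c = j
  · exact Or.inl ⟨h, fun a => by rw [h, sg_self]⟩
  · exact Or.inr ⟨h, fun a => sg_ne a h⟩

/-- frequency of the word of length `2k+2` in `i`, `j`, times the letter `l` -/
def w1 (k : ℕ) (i j l : Fin n) : Fin n → ℤ := sg (k + 1) j + sg (-(k + 1)) i + sg (-1) l

/-- the frequencies with two letters -/
def t2 (k : ℕ) (a b : Fin n) : Fin n → ℤ := sg (k + 1) b + sg (-(k + 2)) a

/-- the frequencies with three letters -/
def t3 (k : ℕ) (a b c : Fin n) : Fin n → ℤ := sg (k + 2) b + sg (-(k + 2)) a + sg (-1) c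

lemma n1_iff (l' l : Fin n) : sg (-1) l' = sg (-1) l ↔ l' = l := by
  constructor
  · intro h
    have h1 := congrFun h l'
    rw [sg_self] at h1
    rcases sg_cases l l' with ⟨h2, _⟩ | ⟨_, h3⟩
    · exact h2
    · rw [h3] at h1
      omega
  · rintro rfl
    rfl

lemma n2_ne (k : ℕ) {a b : Fin n} (hab : a ≠ b) (l : Fin n) : sg (-1) l ≠ t2 k a b := by
  intro h
  have h1 := congrFun h b
  simp only [t2, Pi.add_apply, sg_self, sg_ne _ hab.symm] at h1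
  rcases sg_cases l b with ⟨_, h3⟩ | ⟨_, h3⟩ <;> rw [h3] at h1 <;> omega

lemma n3_ne (k : ℕ) {a b c : Fin n} (hab : a ≠ b) (hbc : b ≠ c) (l : Fin n) :
    sg (-1) l ≠ t3 k a b c := by
  intro h
  have h1 := congrFun h b
  simp only [t3, Pi.add_apply, sg_self, sg_ne _ hab.symm, sg_ne _ hbc] at h1
  rcases sg_cases l b with ⟨_, h3⟩ | ⟨_, h3⟩ <;> rw [h3] at h1 <;> omega

lemma c1_iff (k : ℕ) {i j : Fin n} (hij : i ≠ j) (l' l : Fin n) :
    w1 k i j l' = sg (-1) l ↔ i = l ∧ k = 0 ∧ l' = j := by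
  constructor
  · intro h
    have h1 := congrFun h j
    have h2 := congrFun h i
    simp only [w1, Pi.add_apply, sg_self, sg_ne _ hij.symm, sg_ne _ hij] at h1 h2
    rcases sg_cases l' j with ⟨e1, h3⟩ | ⟨e1, h3⟩ <;> rcases sg_cases l j with ⟨e2, h4⟩ | ⟨e2, h4⟩ <;>
      rw [h3, h4] at h1 <;>
      first
      | (exfalso; omega)
      | skip
    have hk : k = 0 := by omega
    subst e1
    rw [sg_ne _ hij] at h2
    rcases sg_cases l i with ⟨e3, h5⟩ | ⟨e3, h5⟩ <;> rw [h5] at h2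
    · exact ⟨e3, hk, rfl⟩
    · exfalso; omega
  · rintro ⟨rfl, rfl, rfl⟩
    ext c
    simp only [w1, Pi.add_apply]
    rcases sg_cases l' c with ⟨_, h3⟩ | ⟨_, h3⟩ <;> rcases sg_cases i c with ⟨_, h4⟩ | ⟨_, h4⟩ <;>
      simp only [h3, h4] <;> norm_num

lemma c2_iff (k' k : ℕ) {i j a b : Fin n} (hij : i ≠ j) (hab : a ≠ b) (l' : Fin n) :
    w1 k' i j l' = t2 k a b ↔
      (i = a ∧ j = b ∧ k' = k ∧ l' = a) ∨ (i = a ∧ j = b ∧ k' = k + 1 ∧ l' = b) := by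
  constructor
  · intro h
    have h1 := congrFun h b
    have h2 := congrFun h a
    simp only [w1, t2, Pi.add_apply, sg_self, sg_ne _ hab.symm, sg_ne _ hab] at h1 h2
    rcases sg_cases j b with ⟨e1, h3⟩ | ⟨e1, h3⟩
    · subst e1
      rw [h3, sg_ne _ hij.symm] at h1
      rw [sg_ne _ hab] at h2
      rcases sg_cases l' b with ⟨e2, h4⟩ | ⟨e2, h4⟩
      · rw [h4] at h1
        subst e2
        rw [sg_ne _ hab] at h2
        rcases sg_cases i a with ⟨e3, h5⟩ | ⟨e3, h5⟩ <;> rw [h5] at h2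
        · right
          exact ⟨e3.symm, rfl, by omega, rfl⟩
        · exfalso; omega
      · rw [h4] at h1
        rcases sg_cases i a with ⟨e3, h5⟩ | ⟨e3, h5⟩ <;>
          rcases sg_cases l' a with ⟨e4, h6⟩ | ⟨e4, h6⟩ <;> rw [h5, h6] at h2
        · left
          exact ⟨e3.symm, rfl, by omega, e4.symm⟩
        all_goals exfalso; omega
    · exfalso
      rw [h3] at h1
      rcases sg_cases i b with ⟨e3, h5⟩ | ⟨e3, h5⟩ <;>
        rcases sg_cases l' b with ⟨e4, h6⟩ | ⟨e4, h6⟩ <;> rw [h5, h6] at h1 <;> omega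
  · rintro (⟨rfl, rfl, rfl, rfl⟩ | ⟨rfl, rfl, rfl, rfl⟩)
    · ext c
      simp only [w1, t2, Pi.add_apply]
      rcases sg_cases l' c with ⟨_, h3⟩ | ⟨_, h3⟩ <;> rcases sg_cases j c with ⟨_, h4⟩ | ⟨_, h4⟩ <;>
        simp only [h3, h4] <;> ring
    · ext c
      simp only [w1, t2, Pi.add_apply]
      rcases sg_cases i c with ⟨_, h3⟩ | ⟨_, h3⟩ <;> rcases sg_cases l' c with ⟨_, h4⟩ | ⟨_, h4⟩ <;>
        simp only [h3, h4] <;> push_cast <;> ring

lemma c3_iff (k' k : ℕ) {i j a b c : Fin n} (hij : i ≠ j) (hab : a ≠ b) (hac : a ≠ c)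
    (hbc : b ≠ c) (l' : Fin n) :
    w1 k' i j l' = t3 k a b c ↔ i = a ∧ j = b ∧ k' = k + 1 ∧ l' = c := by
  constructor
  · intro h
    have h1 := congrFun h b
    have h2 := congrFun h a
    have h0 := congrFun h c
    simp only [w1, t3, Pi.add_apply, sg_self, sg_ne _ hab.symm, sg_ne _ hab, sg_ne _ hac,
      sg_ne _ hbc, sg_ne _ hac.symm, sg_ne _ hbc.symm] at h1 h2 h0
    rcases sg_cases j b with ⟨e1, h3⟩ | ⟨e1, h3⟩
    · subst e1
      rw [h3, sg_ne _ hij.symm] at h1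
      rw [sg_ne _ hab] at h2
      rw [sg_ne _ hbc.symm] at h0
      rcases sg_cases l' b with ⟨e2, h4⟩ | ⟨e2, h4⟩ <;> rw [h4] at h1 <;>
        rcases sg_cases i c with ⟨e3, h5⟩ | ⟨e3, h5⟩ <;>
        rcases sg_cases l' c with ⟨e4, h6⟩ | ⟨e4, h6⟩ <;> rw [h5, h6] at h0 <;>
        first
        | (exfalso; omega)
        | skip
      subst e4
      rw [sg_ne _ hac] at h2
      rcases sg_cases i a with ⟨e5, h7⟩ | ⟨e5, h7⟩ <;> rw [h7] at h2
      · exact ⟨e5.symm, rfl, by omega, rfl⟩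
      · exfalso; omega
    · exfalso
      rw [h3] at h1
      rcases sg_cases i b with ⟨e3, h5⟩ | ⟨e3, h5⟩ <;>
        rcases sg_cases l' b with ⟨e4, h6⟩ | ⟨e4, h6⟩ <;> rw [h5, h6] at h1 <;> omega
  · rintro ⟨rfl, rfl, rfl, rfl⟩
    ext c
    simp only [w1, t3, Pi.add_apply]
    push_cast
    ring_nf

/-- triples of different indices -/
abbrev Tri (n : ℕ) : Type :=
  {q : Fin n × Fin n × Fin n // q.1 ≠ q.2.1 ∧ q.1 ≠ q.2.2 ∧ q.2.1 ≠ q.2.2}

/-- the modes used on the left -/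
def nuZ (L : ℕ) : Fin n ⊕ (Off n × Fin L) ⊕ (Tri n × Fin L) → (Fin n → ℤ)
  | Sum.inl l => sg (-1) l
  | Sum.inr (Sum.inl x) => t2 x.2 x.1.1.1 x.1.1.2
  | Sum.inr (Sum.inr x) => t3 x.2 x.1.1.1 x.1.1.2.1 x.1.1.2.2

lemma nuZ_inj (L : ℕ) : Function.Injective (nuZ (n := n) L) := by
  rintro (l | ⟨⟨⟨a, b⟩, hab⟩, k⟩ | ⟨⟨⟨a, b, c⟩, h1, h2, h3⟩, k⟩)
    (l' | ⟨⟨⟨a', b'⟩, hab'⟩, k'⟩ | ⟨⟨⟨a', b', c'⟩, h1', h2', h3'⟩, k'⟩) h
  · exact congrArg _ ((n1_iff _ _).mp h)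
  · exact absurd h (n2_ne _ hab' _)
  · exact absurd h (n3_ne _ h1' h3' _)
  · exact absurd h.symm (n2_ne _ hab _)
  · simp only [nuZ] at h
    dsimp only at hab hab' h
    rw [← (c2_iff (k : ℕ) k hab hab a).mpr (Or.inl ⟨rfl, rfl, rfl, rfl⟩)] at h
    rcases (c2_iff _ _ hab hab' _).mp h with ⟨rfl, rfl, h5, -⟩ | ⟨rfl, rfl, -, h6⟩
    · have : k = k' := Fin.ext h5
      subst this
      rfl
    · exact absurd h6 hab
  · exfalso
    simp only [nuZ] at h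
    dsimp only at hab h1' h2' h3' h
    rw [← (c2_iff (k : ℕ) k hab hab a).mpr (Or.inl ⟨rfl, rfl, rfl, rfl⟩)] at h
    obtain ⟨rfl, -, -, h6⟩ := (c3_iff _ _ hab h1' h2' h3' _).mp h
    exact h2' h6
  · exact absurd h.symm (n3_ne _ h1 h3 _)
  · exfalso
    simp only [nuZ] at h
    dsimp only at hab' h1 h2 h3 h
    have h := h.symm
    rw [← (c2_iff (k' : ℕ) k' hab' hab' a').mpr (Or.inl ⟨rfl, rfl, rfl, rfl⟩)] at h
    obtain ⟨rfl, -, -, h6⟩ := (c3_iff _ _ hab' h1 h2 h3 _).mp h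
    exact h2 h6
  · simp only [nuZ] at h
    dsimp only at h1 h2 h3 h1' h2' h3' h
    rw [← (c3_iff ((k : ℕ) + 1) k h1 h1 h2 h3 c).mpr ⟨rfl, rfl, rfl, rfl⟩] at h
    obtain ⟨rfl, rfl, h5, rfl⟩ := (c3_iff _ _ h1 h1' h2' h3' _).mp h
    have : k = k' := Fin.ext (by omega)
    subst this
    rfl

/-- the words -/
abbrev T0 (n L : ℕ) : Type := Option (Off n × Fin (L + 1))

/-- frequencies of the words -/
def m0 (L : ℕ) : T0 n L → (Fin n → ℤ)
  | none => 0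
  | some x => sg (x.2 + 1) x.1.1.2 + sg (-(x.2 + 1)) x.1.1.1

lemma m0_inj (L : ℕ) : Function.Injective (m0 (n := n) L) := by
  rintro (_ | ⟨⟨⟨a, b⟩, hab⟩, k⟩) (_ | ⟨⟨⟨a', b'⟩, hab'⟩, k'⟩) h
  · rfl
  · exfalso
    have h1 := congrFun h b'
    dsimp only at hab'
    simp only [m0, Pi.add_apply, Pi.zero_apply, sg_self, sg_ne _ hab'.symm] at h1
    omega
  · exfalso
    have h1 := congrFun h b
    dsimp only at hab
    simp only [m0, Pi.add_apply, Pi.zero_apply, sg_self, sg_ne _ hab.symm] at h1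
    omega
  · dsimp only at hab hab'
    simp only [m0] at h
    have h2 : w1 (k : ℕ) a b a = t2 k' a' b' + (sg 1 a' + sg (-1) a) := by
      have : w1 (k : ℕ) a b a = (sg ((k : ℕ) + 1 : ℤ) b + sg (-((k : ℕ) + 1 : ℤ)) a) + sg (-1) a := rfl
      rw [this, h]
      ext c
      simp only [t2, Pi.add_apply]
      rcases sg_cases a' c with ⟨_, h3⟩ | ⟨_, h3⟩ <;> simp only [h3] <;> ring
    have e1 := congrFun h b
    have e2 := congrFun h a
    simp only [Pi.add_apply, sg_self, sg_ne _ hab.symm, sg_ne _ hab] at e1 e2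
    rcases sg_cases b' b with ⟨f1, g1⟩ | ⟨f1, g1⟩ <;> rcases sg_cases a' b with ⟨f2, g2⟩ | ⟨f2, g2⟩ <;>
      rw [g1, g2] at e1 <;>
      first
      | (exfalso; omega)
      | skip
    subst f1
    rw [sg_ne _ hab] at e2
    rcases sg_cases a' a with ⟨f3, g3⟩ | ⟨f3, g3⟩ <;> rw [g3] at e2
    · subst f3
      have : k = k' := Fin.ext (by omega)
      subst this
      rfl
    · exfalso; omega

/-- frequencies of the words times a letter -/
def m1 (L : ℕ) (x : T0 n L × Fin n) : Fin n → ℤ := m0 L x.1 + sg (-1) x.2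

lemma m0_abs (L : ℕ) (t : T0 n L) (i : Fin n) : |m0 L t i| ≤ (L : ℤ) + 1 := by
  rcases t with _ | ⟨⟨⟨a, b⟩, hab⟩, k⟩
  · simp only [m0, Pi.zero_apply, abs_zero]
    omega
  · dsimp only at hab
    have hk := k.2
    simp only [m0, Pi.add_apply]
    rw [abs_le]
    rcases sg_cases a i with ⟨f1, g1⟩ | ⟨f1, g1⟩ <;> rcases sg_cases b i with ⟨f2, g2⟩ | ⟨f2, g2⟩ <;>
      rw [g1, g2] <;> constructor <;> omega

lemma m1_abs (L : ℕ) (t : T0 n L × Fin n) (i : Fin n) : |m1 L t i| ≤ (L : ℤ) + 2 := by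
  have h := m0_abs L t.1 i
  simp only [m1, Pi.add_apply]
  rw [abs_le] at h ⊢
  rcases sg_cases t.2 i with ⟨f1, g1⟩ | ⟨f1, g1⟩ <;> rw [g1] <;> constructor <;> omega

end Pool.Agent.Lib.H39T
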